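import Pool.Agent.V8H40.FS.Base

/-!
# Automorphisms of the lattice of r.e. sets
-/

set_option autoImplicit false

namespace Pool.Agent.V8H40.FS

/-- the lattice of recursively enumerable sets -/
abbrev E := {A : Set ℕ // REPred fun n : ℕ => n ∈ A}

/-- an r.e. set as an element of the lattice -/
def mk {A : Set ℕ} (h : RE A) : E := ⟨A, h⟩

variable (Φ : E ≃o E)

theorem aut_sub {X Y : E} : (Φ X).1 ⊆ (Φ Y).1 ↔ X.1 ⊆ Y.1 := Φ.le_iff_le

theorem aut_empty {X : E} (h : X.1 = ∅) : (Φ X).1 = ∅ := by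
  have h1 : X ≤ Φ.symm ⟨∅, RE_finite Set.finite_empty⟩ := by
    show X.1 ⊆ _
    rw [h]
    exact Set.empty_subset _
  have h2 : Φ X ≤ ⟨∅, RE_finite Set.finite_empty⟩ := by
    have := Φ.monotone h1
    rwa [OrderIso.apply_symm_apply] at this
  exact Set.subset_empty_iff.1 h2

theorem aut_univ {X : E} (h : X.1 = Set.univ) : (Φ X).1 = Set.univ := by
  have h1 : Φ.symm ⟨Set.univ, RE_univ⟩ ≤ X := by
    show _ ⊆ X.1
    rw [h]
    exact Set.subset_univ _
  have h2 : ⟨Set.univ, RE_univ⟩ ≤ Φ X := by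
    have := Φ.monotone h1
    rwa [OrderIso.apply_symm_apply] at this
  exact Set.univ_subset_iff.1 h2

theorem aut_union {X Y Z : E} (h : Z.1 = X.1 ∪ Y.1) : (Φ Z).1 = (Φ X).1 ∪ (Φ Y).1 := by
  apply Set.Subset.antisymm
  · have hr : RE ((Φ X).1 ∪ (Φ Y).1) := RE.union (Φ X).2 (Φ Y).2
    have h1 : Z ≤ Φ.symm (mk hr) := by
      show Z.1 ⊆ _
      rw [h]
      refine Set.union_subset ?_ ?_
      · have : X ≤ Φ.symm (mk hr) := by
          rw [← Φ.le_iff_le, OrderIso.apply_symm_apply]
          exact Set.subset_union_left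
        exact this
      · have : Y ≤ Φ.symm (mk hr) := by
          rw [← Φ.le_iff_le, OrderIso.apply_symm_apply]
          exact Set.subset_union_right
        exact this
    have h2 := Φ.monotone h1
    rw [OrderIso.apply_symm_apply] at h2
    exact h2
  · refine Set.union_subset ?_ ?_
    · exact (aut_sub Φ).2 (h ▸ Set.subset_union_left)
    · exact (aut_sub Φ).2 (h ▸ Set.subset_union_right)

theorem aut_inter {X Y Z : E} (h : Z.1 = X.1 ∩ Y.1) : (Φ Z).1 = (Φ X).1 ∩ (Φ Y).1 := by
  apply Set.Subset.antisymm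
  · refine Set.subset_inter ?_ ?_
    · exact (aut_sub Φ).2 (h ▸ Set.inter_subset_left)
    · exact (aut_sub Φ).2 (h ▸ Set.inter_subset_right)
  · have hr : RE ((Φ X).1 ∩ (Φ Y).1) := RE.inter (Φ X).2 (Φ Y).2
    have h1 : Φ.symm (mk hr) ≤ Z := by
      show _ ⊆ Z.1
      rw [h]
      refine Set.subset_inter ?_ ?_
      · have : Φ.symm (mk hr) ≤ X := by
          rw [← Φ.le_iff_le, OrderIso.apply_symm_apply]
          exact Set.inter_subset_left
        exact this
      · have : Φ.symm (mk hr) ≤ Y := by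
          rw [← Φ.le_iff_le, OrderIso.apply_symm_apply]
          exact Set.inter_subset_right
        exact this
    have h2 := Φ.monotone h1
    rw [OrderIso.apply_symm_apply] at h2
    exact h2

theorem aut_disjoint {X Y : E} (h : Disjoint X.1 Y.1) : Disjoint (Φ X).1 (Φ Y).1 := by
  rw [Set.disjoint_iff_inter_eq_empty] at *
  have := aut_inter Φ (X := X) (Y := Y) (Z := ⟨∅, RE_finite Set.finite_empty⟩) h.symm
  rw [← this]
  exact aut_empty Φ rfl

theorem fin_iff (X : E) : X.1.Finite ↔ (Set.Iic X).Finite := by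
  constructor
  · intro h
    have h1 : (𝒫 X.1).Finite := h.finite_subsets
    refine Set.Finite.of_finite_image (f := Subtype.val) (h1.subset ?_)
      Subtype.val_injective.injOn
    rintro _ ⟨Y, hY, rfl⟩
    exact hY
  · intro h
    have hinj : Function.Injective fun n : ℕ =>
        (⟨{n}, RE_finite (Set.finite_singleton n)⟩ : E) := by
      intro a b hab
      exact Set.singleton_injective (congrArg Subtype.val hab)
    refine Set.Finite.of_finite_image (f := fun n : ℕ =>
      (⟨{n}, RE_finite (Set.finite_singleton n)⟩ : E)) (h.subset ?_) hinj.injOn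
    rintro _ ⟨n, hn, rfl⟩
    show {n} ⊆ X.1
    exact Set.singleton_subset_iff.2 hn

theorem aut_finite {X : E} (h : X.1.Finite) : (Φ X).1.Finite := by
  rw [fin_iff] at *
  have : Set.Iic (Φ X) = Φ '' Set.Iic X := by
    ext Y
    constructor
    · intro hY
      refine ⟨Φ.symm Y, ?_, OrderIso.apply_symm_apply _ _⟩
      show Φ.symm Y ≤ X
      rw [← Φ.le_iff_le, OrderIso.apply_symm_apply]
      exact hY
    · rintro ⟨Y, hY, rfl⟩
      exact Φ.monotone hY
  rw [this]
  exact h.image _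

theorem aut_rec {X : E} (h : Rec X.1) : Rec (Φ X).1 := by
  refine ⟨(Φ X).2, ?_⟩
  have h1 := aut_union Φ (X := X) (Y := mk h.2) (Z := ⟨Set.univ, RE_univ⟩)
    (by simp [mk])
  rw [aut_univ Φ rfl] at h1
  have h2 : Disjoint (Φ X).1 (Φ (mk h.2)).1 := aut_disjoint Φ disjoint_compl_right
  have : (Φ X).1ᶜ = (Φ (mk h.2)).1 := by
    ext z
    constructor
    · intro hz
      have : z ∈ Set.univ := trivial
      rw [h1] at this
      exact this.resolve_left hz
    · intro hz hz'
      exact Set.disjoint_left.1 h2 hz' hz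
  rw [this]
  exact (Φ (mk h.2)).2

/-- almost inclusion is preserved -/
theorem aut_almost {X Y : E} (h : (X.1 \ Y.1).Finite) : ((Φ X).1 \ (Φ Y).1).Finite := by
  have hF : RE (X.1 \ Y.1) := RE_finite h
  have hU : RE (Y.1 ∪ (X.1 \ Y.1)) := RE.union Y.2 hF
  have h1 := aut_union Φ (X := Y) (Y := mk hF) (Z := mk hU) rfl
  have h2 : (Φ X).1 ⊆ (Φ (mk hU)).1 := (aut_sub Φ).2 (by
    intro z hz
    by_cases hy : z ∈ Y.1
    · exact Or.inl hy
    · exact Or.inr ⟨hz, hy⟩)
  refine (aut_finite Φ (X := mk hF) h).subset ?_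
  rintro z ⟨hz1, hz2⟩
  have := h2 hz1
  rw [h1] at this
  exact this.resolve_left hz2

end Pool.Agent.V8H40.FS
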