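import Pool.Agent.V8H40.FS.One

/-!
# A generic Friedberg splitting
-/

set_option autoImplicit false

namespace Pool.Agent.V8H40.FS.Three

/-- the type of the requirement `n` -/
def ty (n : ℕ) : ℕ := (n / 2) % 2
/-- the first index -/
def ia (n : ℕ) : ℕ := (n / 2 / 2).unpair.1
/-- the second index -/
def ib (n : ℕ) : ℕ := (n / 2 / 2).unpair.2.unpair.1
/-- the third index -/
def ij (n : ℕ) : ℕ := (n / 2 / 2).unpair.2.unpair.2

/-- the predicate of an element and a stage: type `0` means that `z` is in the `a`-th set, type `1`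
that it is neither in the `a`-th nor in the `b`-th set -/
def Q (c a b s z : ℕ) : Prop := (c = 0 ∧ W a s z) ∨ (c = 1 ∧ ¬ W a s z ∧ ¬ W b s z)

/-- the condition of the third construction -/
def C3 (n : ℕ) (L : Hist) (z : ℕ) : Prop :=
  ¬ Sat L n ∧ W (ij n) L.length z ∧ Q (ty n) (ia n) (ib n) L.length z

theorem Q_comp {α : Type*} [Primcodable α] {c a b s z : α → ℕ} (hc : Primrec c) (ha : Primrec a)
    (hb : Primrec b) (hs : Primrec s) (hz : Primrec z) :
    PrimrecPred fun x => Q (c x) (a x) (b x) (s x) (z x) := by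
  refine PrimrecPred.or ?_ ?_
  · exact (Primrec.eq.comp hc (Primrec.const 0)).and (W_comp ha hs hz)
  · exact (Primrec.eq.comp hc (Primrec.const 1)).and
      ((W_comp ha hs hz).not.and (W_comp hb hs hz).not)

theorem ty_prim : Primrec ty :=
  Primrec.nat_mod.comp (Primrec.nat_div.comp Primrec.id (Primrec.const 2)) (Primrec.const 2)

theorem d4_prim : Primrec fun n : ℕ => n / 2 / 2 :=
  Primrec.nat_div.comp (Primrec.nat_div.comp Primrec.id (Primrec.const 2)) (Primrec.const 2)

theorem ia_prim : Primrec ia := Primrec.fst.comp (Primrec.unpair.comp d4_prim)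

theorem ib_prim : Primrec ib :=
  Primrec.fst.comp (Primrec.unpair.comp (Primrec.snd.comp (Primrec.unpair.comp d4_prim)))

theorem ij_prim : Primrec ij :=
  Primrec.snd.comp (Primrec.unpair.comp (Primrec.snd.comp (Primrec.unpair.comp d4_prim)))

theorem C3_prim : PrimrecPred fun a : (ℕ × Hist) × ℕ => C3 a.1.1 a.1.2 a.2 := by
  have e1 : Primrec fun a : (ℕ × Hist) × ℕ => a.1.1 := Primrec.fst.comp Primrec.fst
  have e2 : Primrec fun a : (ℕ × Hist) × ℕ => a.1.2 := Primrec.snd.comp Primrec.fst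
  have e3 : Primrec fun a : (ℕ × Hist) × ℕ => a.2 := Primrec.snd
  have e4 := Primrec.list_length.comp e2
  exact (Sat_prim.comp e2 e1).not.and ((W_comp (ij_prim.comp e1) e4 e3).and
    (Q_comp (ty_prim.comp e1) (ia_prim.comp e1) (ib_prim.comp e1) e4 e3))

theorem C3_iff {Z : ℕ → Option ℕ} {n s z : ℕ} : C3 n (log Z C3 s) z ↔
    ¬ Sat (log Z C3 s) n ∧ W (ij n) s z ∧ Q (ty n) (ia n) (ib n) s z := by
  unfold C3
  rw [length_log]

section
variable {β : ℕ → Option ℕ} (hβ : Primrec β)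
  (hβ1 : ∀ x s t, β s = some x → β t = some x → s = t)

/-- the two halves -/
def G (β : ℕ → Option ℕ) (i : ℕ) : Set ℕ :=
  {x | ∃ s, β s = some x ∧ ((A β C3 s).map (fun p => p.1 % 2) = some 1 ↔ i = 1)}

theorem G_RE (hβ : Primrec β) (i : ℕ) : RE (G β i) := by
  have h : PrimrecPred fun a : ℕ × ℕ => β a.2 = some a.1 ∧
      ((A β C3 a.2).map (fun p => p.1 % 2) = some 1 ↔ i = 1) := by
    have h1 : PrimrecPred fun a : ℕ × ℕ => (A β C3 a.2).map (fun p => p.1 % 2) = some 1 := by
      refine Primrec.eq.comp (Primrec.option_map ((A_prim hβ C3_prim).comp Primrec.snd) ?_)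
        (Primrec.const _)
      exact (Primrec.nat_mod.comp (Primrec.fst.comp Primrec.snd) (Primrec.const 2))
    refine (Primrec.eq.comp (hβ.comp Primrec.snd) (Primrec.option_some.comp Primrec.fst)).and ?_
    by_cases hi : i = 1
    · exact h1.of_eq fun a => by simp [hi]
    · exact h1.not.of_eq fun a => by simp [hi]
  exact RE_of_prim (P := fun x s => β s = some x ∧
      ((A β C3 s).map (fun p => p.1 % 2) = some 1 ↔ i = 1)) h

/-- the elements enumerated by `β` that satisfy `Q` at the stage of their enumeration -/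
def BQ (β : ℕ → Option ℕ) (c a b : ℕ) : Set ℕ := {z | ∃ s, β s = some z ∧ Q c a b s z}

theorem BQ_RE (hβ : Primrec β) (c a b : ℕ) : RE (BQ β c a b) := by
  refine RE_of_prim (P := fun z s => β s = some z ∧ Q c a b s z) ?_
  exact (Primrec.eq.comp (hβ.comp Primrec.snd) (Primrec.option_some.comp Primrec.fst)).and
    (Q_comp (Primrec.const _) (Primrec.const _) (Primrec.const _) Primrec.snd Primrec.fst)

theorem fin_small' (n : ℕ) :
    {x | ∃ t, β t = some x ∧ (t ≤ n ∨ ∃ k ≤ n, A β C3 t = some (k, x))}.Finite := by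
  classical
  have h1 : {x | ∃ t, β t = some x ∧ t ≤ n}.Finite := by
    have : {x | ∃ t, β t = some x ∧ t ≤ n} ⊆
        ((Finset.range (n + 1)).image fun t => (β t).getD 0 : Finset ℕ) := by
      rintro x ⟨t, h, ht⟩
      simp only [Finset.coe_image, Finset.coe_range, Set.mem_image, Set.mem_Iio]
      exact ⟨t, by omega, by rw [h]; rfl⟩
    exact (Finset.finite_toSet _).subset this
  have h2 : ∀ k, {x | ∃ t, A β C3 t = some (k, x)}.Finite := by
    intro k
    refine Set.Subsingleton.finite ?_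
    rintro x ⟨t, ht⟩ y ⟨u, hu⟩
    have := unique_n (fun _ _ _ h => h.1) ht hu
    subst this
    rw [ht] at hu
    simpa using hu
  have h3 : (⋃ k ∈ Finset.range (n + 1), {x | ∃ t, A β C3 t = some (k, x)}).Finite :=
    Set.Finite.biUnion (Finset.finite_toSet _) fun k _ => h2 k
  refine (h1.union h3).subset ?_
  rintro x ⟨t, h, ht | ⟨k, hk, ht⟩⟩
  · exact Or.inl ⟨t, h, ht⟩
  · right
    simp only [Finset.mem_range, Set.mem_iUnion]
    exact ⟨k, by omega, t, ht⟩

include hβ hβ1 in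
/-- the main property of the splitting -/
theorem generic (i : ℕ) (hi : i < 2) (c a b : ℕ) (hc : c < 2)
    (h : RE (BQ β c a b ∩ G β i)ᶜ) : Rec (BQ β c a b) := by
  obtain ⟨j, hj⟩ := exists_W h
  obtain ⟨n, hn1, hn2, hn3, hn4, hn5⟩ : ∃ n, n % 2 = i ∧ ty n = c ∧ ia n = a ∧ ib n = b ∧
      ij n = j := by
    refine ⟨2 * (2 * Nat.pair a (Nat.pair b j) + c) + i, by omega, ?_, ?_, ?_, ?_⟩
    · unfold ty; omega
    all_goals
      have e : (2 * (2 * Nat.pair a (Nat.pair b j) + c) + i) / 2 / 2 =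
        Nat.pair a (Nat.pair b j) := by omega
    · unfold ia; rw [e]; simp
    · unfold ib; rw [e]; simp
    · unfold ij; rw [e]; simp
  have hnsat : ∀ s, ¬ Sat (log β C3 s) n := by
    intro s hs
    obtain ⟨t, -, x, ht⟩ := sat_log.1 hs
    have h0 := A_eq_some.1 ht
    have h4 := C3_iff.1 h0.2.2.1
    rw [hn2, hn3, hn4, hn5] at h4
    have h5 : x ∈ (BQ β c a b ∩ G β i)ᶜ := (hj x).2 ⟨t, h4.2.1⟩
    refine h5 ⟨⟨t, h0.1, h4.2.2⟩, t, h0.1, ?_⟩
    rw [ht]
    simp only [Option.map_some, Option.some.injEq]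
    rw [hn1]
  refine ⟨BQ_RE hβ c a b, ?_⟩
  set D1 : Set ℕ := {z | ∃ s, W j s z ∧ ∀ t ∈ List.range s, ¬ β t = some z} with hD1
  set D2 : Set ℕ := {z | ∃ s, β s = some z ∧ ¬ Q c a b s z} with hD2
  have hD1r : RE D1 := by
    refine RE_of_prim (P := fun z s => W j s z ∧ ∀ t ∈ List.range s, ¬ β t = some z) ?_
    refine (W_comp (Primrec.const j) Primrec.snd Primrec.fst).and ?_
    have h0 : PrimrecRel fun (t : ℕ) (y : ℕ) => ¬ β t = some y :=
      (Primrec.eq.comp (hβ.comp Primrec.fst) (Primrec.option_some.comp Primrec.snd)).not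
    exact h0.forall_mem_list.comp (Primrec.list_range.comp Primrec.snd) Primrec.fst
  have hD2r : RE D2 := by
    refine RE_of_prim (P := fun z s => β s = some z ∧ ¬ Q c a b s z) ?_
    exact (Primrec.eq.comp (hβ.comp Primrec.snd) (Primrec.option_some.comp Primrec.fst)).and
      (Q_comp (Primrec.const _) (Primrec.const _) (Primrec.const _) Primrec.snd Primrec.fst).not
  have hfin : (D1 ∩ BQ β c a b).Finite := by
    refine (fin_small' (β := β) n).subset ?_
    rintro z ⟨⟨s, hs1, hs2⟩, t, ht, hQ⟩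
    refine ⟨t, ht, ?_⟩
    by_contra hcon
    push Not at hcon
    have hst : s ≤ t := by
      by_contra hlt
      exact hs2 t (List.mem_range.2 (by omega)) ht
    have hC : C3 n (log β C3 t) z := by
      refine C3_iff.2 ⟨hnsat t, ?_, ?_⟩
      · rw [hn5]; exact W_mono hst hs1
      · rw [hn2, hn3, hn4]; exact hQ
    obtain ⟨k, hk, hk2⟩ := exists_act ht hcon.1 hC
    exact hcon.2 k hk hk2
  refine ((hD1r.diff_finite hfin).union hD2r).of_eq ?_
  ext z
  constructor
  · rintro (⟨h1, h2⟩ | ⟨s, h1, h2⟩)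
    · exact fun h3 => h2 ⟨h1, h3⟩
    · rintro ⟨t, ht, hQ⟩
      have := hβ1 z s t h1 ht
      subst this
      exact h2 hQ
  · intro hz
    by_cases hzB : ∃ s, β s = some z
    · obtain ⟨s, hs⟩ := hzB
      exact Or.inr ⟨s, hs, fun hQ => hz ⟨s, hs, hQ⟩⟩
    · left
      obtain ⟨s, hs⟩ := (hj z).1 fun h => hz h.1
      exact ⟨⟨s, hs, fun t _ ht => hzB ⟨t, ht⟩⟩, fun h => hz h.2⟩

end

/-- Every r.e. set `B` is the union of disjoint r.e. sets `G0`, `G1` with the following properties,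
for each of them. (a) If `V` is r.e. and disjoint from the half, then `V \ B` is r.e. (b) If `S` and
`T` are disjoint, `S ⊆ B ⊆ S ∪ T` and `S` is not recursive, then there is an r.e. subset `V` of `B`,
with `(S ∪ T) \ V` r.e., whose intersection with the half is not recursive. -/
theorem exists_generic {B : Set ℕ} (hB : RE B) : ∃ G0 G1 : Set ℕ, RE G0 ∧ RE G1 ∧ Disjoint G0 G1 ∧
    G0 ∪ G1 = B ∧
    (∀ V : Set ℕ, RE V → (V ∩ G0 = ∅ ∨ V ∩ G1 = ∅) → RE (V \ B)) ∧
    ∀ S T : Set ℕ, RE S → RE T → Disjoint S T → S ⊆ B → B ⊆ S ∪ T → ¬ Rec S →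
      ∃ V : Set ℕ, RE V ∧ V ⊆ B ∧ RE ((S ∪ T) \ V) ∧ ¬ Rec (V ∩ G0) := by
  obtain ⟨β, hβ, hβB, hβ1⟩ := hB.exists_enum
  have hBQsub : ∀ c a b, BQ β c a b ⊆ B := fun c a b z ⟨s, hs, _⟩ => (hβB z).2 ⟨s, hs⟩
  have hnb : ∀ (P : ℕ → ℕ → Prop), PrimrecPred (fun a : ℕ × ℕ => P a.1 a.2) →
      RE {z | ∃ s, P z s ∧ ∀ t ∈ List.range s, ¬ β t = some z} := by
    intro P hP
    refine RE_of_prim (P := fun z s => P z s ∧ ∀ t ∈ List.range s, ¬ β t = some z) ?_
    refine hP.and ?_
    have h0 : PrimrecRel fun (t : ℕ) (y : ℕ) => ¬ β t = some y :=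
      (Primrec.eq.comp (hβ.comp Primrec.fst) (Primrec.option_some.comp Primrec.snd)).not
    exact h0.forall_mem_list.comp (Primrec.list_range.comp Primrec.snd) Primrec.fst
  refine ⟨G β 0, G β 1, G_RE hβ 0, G_RE hβ 1, ?_, ?_, ?_, ?_⟩
  · rw [Set.disjoint_left]
    rintro x ⟨s, h1, h2⟩ ⟨t, h3, h4⟩
    have := hβ1 x s t h1 h3
    subst this
    simp only [zero_ne_one, iff_false] at h2
    simp only [iff_true] at h4
    exact h2 h4
  · ext x
    constructor
    · rintro (⟨s, h, -⟩ | ⟨s, h, -⟩)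
      · exact (hβB x).2 ⟨s, h⟩
      · exact (hβB x).2 ⟨s, h⟩
    · intro hx
      obtain ⟨s, hs⟩ := (hβB x).1 hx
      by_cases h : (A β C3 s).map (fun p => p.1 % 2) = some 1
      · exact Or.inr ⟨s, hs, by simp [h]⟩
      · exact Or.inl ⟨s, hs, by simpa using h⟩
  · intro V hV hd
    obtain ⟨a, ha⟩ := exists_W hV
    have hsubV : BQ β 0 a 0 ⊆ V := by
      rintro z ⟨s, hs, hQ⟩
      rcases hQ with ⟨-, h⟩ | ⟨h, -⟩
      · exact (ha z).2 ⟨s, h⟩
      · omega
    have hrec : Rec (BQ β 0 a 0) := by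
      rcases hd with hd | hd
      · refine generic hβ hβ1 0 (by omega) 0 a 0 (by omega) ?_
        have : BQ β 0 a 0 ∩ G β 0 = ∅ := by
          rw [← Set.subset_empty_iff, ← hd]
          exact Set.inter_subset_inter_left _ hsubV
        rw [this, Set.compl_empty]
        exact RE_univ
      · refine generic hβ hβ1 1 (by omega) 0 a 0 (by omega) ?_
        have : BQ β 0 a 0 ∩ G β 1 = ∅ := by
          rw [← Set.subset_empty_iff, ← hd]
          exact Set.inter_subset_inter_left _ hsubV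
        rw [this, Set.compl_empty]
        exact RE_univ
    have hD := hnb (fun z s => W a s z) (W_comp (Primrec.const a) Primrec.snd Primrec.fst)
    refine (hD.inter hrec.2).of_eq ?_
    ext z
    constructor
    · rintro ⟨⟨s, hs1, hs2⟩, h⟩
      refine ⟨(ha z).2 ⟨s, hs1⟩, fun hzB => ?_⟩
      obtain ⟨t, ht⟩ := (hβB z).1 hzB
      have hst : s ≤ t := by
        by_contra hlt
        exact hs2 t (List.mem_range.2 (by omega)) ht
      exact h ⟨t, ht, Or.inl ⟨rfl, W_mono hst hs1⟩⟩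
    · rintro ⟨h1, h2⟩
      obtain ⟨s, hs⟩ := (ha z).1 h1
      exact ⟨⟨s, hs, fun t _ ht => h2 ((hβB z).2 ⟨t, ht⟩)⟩, fun h => h2 (hBQsub _ _ _ h)⟩
  · intro S T hS hT hST hSB hBT hSr
    obtain ⟨a, ha⟩ := exists_W hS
    obtain ⟨b, hb⟩ := exists_W hT
    have hmain : ¬ Rec (BQ β 0 a b) ∨ ¬ Rec (BQ β 1 a b) := by
      by_contra hcon
      push Not at hcon
      refine hSr ?_
      have h1 : Rec (BQ β 1 a b ∩ S) := by
        refine Rec.split (A := BQ β 1 a b) (C := BQ β 1 a b ∩ T) hcon.2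
          ((BQ_RE hβ 1 a b).inter hS) ((BQ_RE hβ 1 a b).inter hT) ?_ ?_
        · ext z
          constructor
          · rintro (h | h)
            · exact h.1
            · exact h.1
          · intro h
            rcases hBT (hBQsub _ _ _ h) with h' | h'
            · exact Or.inl ⟨h, h'⟩
            · exact Or.inr ⟨h, h'⟩
        · rw [Set.disjoint_left]
          rintro z ⟨-, h1⟩ ⟨-, h2⟩
          exact Set.disjoint_left.1 hST h1 h2
      have h2 : S = BQ β 0 a b ∪ (BQ β 1 a b ∩ S) := by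
        ext z
        constructor
        · intro hz
          obtain ⟨s, hs⟩ := (hβB z).1 (hSB hz)
          by_cases h3 : W a s z
          · exact Or.inl ⟨s, hs, Or.inl ⟨rfl, h3⟩⟩
          · refine Or.inr ⟨⟨s, hs, Or.inr ⟨rfl, h3, fun h4 => ?_⟩⟩, hz⟩
            exact Set.disjoint_left.1 hST hz ((hb z).2 ⟨s, h4⟩)
        · rintro (⟨s, -, hQ⟩ | h)
          · rcases hQ with ⟨-, h⟩ | ⟨h, -⟩
            · exact (ha z).2 ⟨s, h⟩
            · omega
          · exact h.2
      rw [h2]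
      exact hcon.1.union h1
    rcases hmain with h | h
    · refine ⟨BQ β 0 a b, BQ_RE hβ 0 a b, hBQsub _ _ _, ?_, fun h' => h
        (generic hβ hβ1 0 (by omega) 0 a b (by omega) h'.2)⟩
      have hD2r : RE {z | ∃ s, β s = some z ∧ ¬ W a s z} := by
        refine RE_of_prim (P := fun z s => β s = some z ∧ ¬ W a s z) ?_
        exact (Primrec.eq.comp (hβ.comp Primrec.snd) (Primrec.option_some.comp Primrec.fst)).and
          (W_comp (Primrec.const a) Primrec.snd Primrec.fst).not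
      refine (hT.union (hD2r.inter hS)).of_eq ?_
      ext z
      constructor
      · rintro (h1 | ⟨⟨s, hs1, hs2⟩, h1⟩)
        · refine ⟨Or.inr h1, ?_⟩
          rintro ⟨s, -, hQ⟩
          rcases hQ with ⟨-, h⟩ | ⟨h, -⟩
          · exact Set.disjoint_left.1 hST ((ha z).2 ⟨s, h⟩) h1
          · omega
        · refine ⟨Or.inl h1, ?_⟩
          rintro ⟨t, ht, hQ⟩
          have := hβ1 z s t hs1 ht
          subst this
          rcases hQ with ⟨-, h⟩ | ⟨h, -⟩
          · exact hs2 h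
          · omega
      · rintro ⟨h1 | h1, h2⟩
        · obtain ⟨s, hs⟩ := (hβB z).1 (hSB h1)
          exact Or.inr ⟨⟨s, hs, fun h3 => h2 ⟨s, hs, Or.inl ⟨rfl, h3⟩⟩⟩, h1⟩
        · exact Or.inl h1
    · refine ⟨BQ β 1 a b, BQ_RE hβ 1 a b, hBQsub _ _ _, ?_, fun h' => h
        (generic hβ hβ1 0 (by omega) 1 a b (by omega) h'.2)⟩
      have hD := hnb (fun z s => W a s z ∨ W b s z)
        ((W_comp (Primrec.const a) Primrec.snd Primrec.fst).or
          (W_comp (Primrec.const b) Primrec.snd Primrec.fst))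
      refine hD.of_eq ?_
      ext z
      constructor
      · rintro ⟨s, hs1, hs2⟩
        refine ⟨?_, ?_⟩
        · rcases hs1 with h1 | h1
          · exact Or.inl ((ha z).2 ⟨s, h1⟩)
          · exact Or.inr ((hb z).2 ⟨s, h1⟩)
        · rintro ⟨t, ht, hQ⟩
          have hst : s ≤ t := by
            by_contra hlt
            exact hs2 t (List.mem_range.2 (by omega)) ht
          rcases hQ with ⟨h, -⟩ | ⟨-, h3, h4⟩
          · omega
          · rcases hs1 with h1 | h1
            · exact h3 (W_mono hst h1)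
            · exact h4 (W_mono hst h1)
      · rintro ⟨h1, h2⟩
        by_cases hzB : z ∈ B
        · obtain ⟨s, hs⟩ := (hβB z).1 hzB
          refine ⟨s, ?_, fun t ht h3 => ?_⟩
          · by_contra hcon
            push Not at hcon
            exact h2 ⟨s, hs, Or.inr ⟨rfl, hcon.1, hcon.2⟩⟩
          · have := hβ1 z s t hs h3
            rw [List.mem_range] at ht
            omega
        · rcases h1 with h1 | h1
          · obtain ⟨s, hs⟩ := (ha z).1 h1
            exact ⟨s, Or.inl hs, fun t _ ht => hzB ((hβB z).2 ⟨t, ht⟩)⟩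
          · obtain ⟨s, hs⟩ := (hb z).1 h1
            exact ⟨s, Or.inr hs, fun t _ ht => hzB ((hβB z).2 ⟨t, ht⟩)⟩

end Pool.Agent.V8H40.FS.Three
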