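import Pool.Agent.V8H40.FS.Two
import Pool.Agent.V8H40.FS.Three
import Pool.Agent.V8H40.FS.Aut

/-!
# Two halves of Friedberg splittings of one simple set that are not automorphic
-/

set_option autoImplicit false

namespace Pool.Agent.V8H40.FS

/-- A simple set `B` with a special splitting `A`, `A1`. -/
theorem exists_special : ∃ A A1 M0 M1 : Set ℕ, RE A ∧ RE A1 ∧ RE M0 ∧ RE M1 ∧ Disjoint A A1 ∧
    (A ∪ A1)ᶜ.Infinite ∧ (∀ V : Set ℕ, RE V → V ∩ (A ∪ A1) = ∅ → V.Finite) ∧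
    (∀ V : Set ℕ, RE V → (V ∩ A = ∅ ∨ V ∩ A1 = ∅) → (V \ (A ∪ A1)).Finite) ∧
    Disjoint M0 M1 ∧ M0 ⊆ A ∪ A1 ∧ A ∪ A1 ⊆ M0 ∪ M1 ∧ ¬ Rec M0 ∧
    ∀ S T : Set ℕ, RE S → RE T → Disjoint S T → S ∪ T = M0 ∪ M1 → S ⊆ A ∪ A1 → Rec (S ∩ A) := by
  obtain ⟨M0, M1, hM0, hM1, hM01, hco, hmeet⟩ := exists_pair
  obtain ⟨A, A', hA, hA', hAA', hsub, hpos, hneg⟩ := Two.exists_small hM1
  have hAM : A ⊆ M1 := fun x hx => hsub (Or.inl hx)
  have hA'M : A' ⊆ M1 := fun x hx => hsub (Or.inr hx)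
  have hB : A ∪ (M0 ∪ A') = M0 ∪ (A ∪ A') := by
    ext x; simp only [Set.mem_union]; tauto
  have hBM : A ∪ (M0 ∪ A') ⊆ M0 ∪ M1 := by
    rintro x (h | h | h)
    · exact Or.inr (hAM h)
    · exact Or.inl h
    · exact Or.inr (hA'M h)
  have key : ∀ V : Set ℕ, RE V → (V ∩ A = ∅ ∨ V ∩ A' = ∅) → (V \ (A ∪ (M0 ∪ A'))).Finite := by
    intro V hV hd
    obtain ⟨h1, h2⟩ := hpos V hV hd
    have h3 : ((V \ (A ∪ A')) ∩ M1).Finite := by
      refine h1.subset ?_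
      rintro x ⟨⟨a, b⟩, c⟩
      exact ⟨⟨a, c⟩, b⟩
    have h4 : RE ((V \ (A ∪ A')) \ ((V \ (A ∪ A')) ∩ M1)) := h2.diff_finite h3
    have h5 : (((V \ (A ∪ A')) \ ((V \ (A ∪ A')) ∩ M1)) \ (M0 ∪ M1)).Finite := by
      by_contra hcon
      obtain ⟨x, hx1, hx2⟩ := (hmeet _ h4 hcon).2
      exact hx1.2 ⟨hx1.1, hx2⟩
    refine (h3.union h5).subset ?_
    rintro x ⟨hx, hxB⟩
    have hx1 : x ∈ V \ (A ∪ A') := ⟨hx, fun h => hxB (by rw [hB]; exact Or.inr h)⟩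
    by_cases hx2 : x ∈ M1
    · exact Or.inl ⟨hx1, hx2⟩
    · refine Or.inr ⟨⟨hx1, fun h => hx2 h.2⟩, ?_⟩
      rintro (h | h)
      · exact hxB (by rw [hB]; exact Or.inl h)
      · exact hx2 h
  refine ⟨A, M0 ∪ A', M0, M1, hA, hM0.union hA', hM0, hM1, ?_, ?_, ?_, ?_, hM01, ?_, hBM, ?_, ?_⟩
  · rw [Set.disjoint_union_right]
    exact ⟨(hM01.mono_right hAM).symm, hAA'⟩
  · exact hco.mono (Set.compl_subset_compl.2 hBM)
  · intro V hV hd
    have h1 := key V hV (Or.inl (by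
      rw [← Set.subset_empty_iff, ← hd]
      exact Set.inter_subset_inter_right _ Set.subset_union_left))
    refine h1.subset fun x hx => ⟨hx, fun hxB => ?_⟩
    have : x ∈ V ∩ (A ∪ (M0 ∪ A')) := ⟨hx, hxB⟩
    rw [hd] at this
    exact this
  · rintro V hV (hd | hd)
    · exact key V hV (Or.inl hd)
    · refine key V hV (Or.inr ?_)
      rw [← Set.subset_empty_iff, ← hd]
      exact Set.inter_subset_inter_right _ Set.subset_union_right
  · exact fun x hx => Or.inr (Or.inl hx)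
  · rintro ⟨-, h⟩
    have hinf : (M0ᶜ \ (M0 ∪ M1)).Infinite := by
      refine hco.mono fun x (hx : x ∉ M0 ∪ M1) => ⟨fun h => hx (Or.inl h), hx⟩
    obtain ⟨x, hx1, hx2⟩ := (hmeet _ h hinf).1
    exact hx1 hx2
  · intro S T hS hT hST hU hSB
    have hM1S : M1 \ (T ∩ M1) = M1 ∩ S := by
      ext x
      constructor
      · rintro ⟨h1, h2⟩
        have : x ∈ S ∪ T := by rw [hU]; exact Or.inr h1
        rcases this with h | h
        · exact ⟨h1, h⟩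
        · exact absurd ⟨h, h1⟩ h2
      · rintro ⟨h1, h2⟩
        exact ⟨h1, fun h => Set.disjoint_left.1 hST h2 h.1⟩
    have hrec : Rec (M1 ∩ S) := by
      rw [← hM1S]
      refine hneg _ (hT.inter hM1) (by rw [hM1S]; exact hM1.inter hS) ?_
      rintro x ⟨h1, h2⟩
      refine ⟨?_, h1⟩
      have : x ∈ S ∪ T := by rw [hU]; exact Or.inr h1
      rcases this with h | h
      · exfalso
        have := hSB h
        rw [hB] at this
        rcases this with h3 | h3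
        · exact Set.disjoint_left.1 hM01 h3 h1
        · exact h2 h3
      · exact h
    refine Rec.split (A := M1 ∩ S) (C := S ∩ A') hrec (hS.inter hA) (hS.inter hA') ?_ ?_
    · ext x
      constructor
      · rintro (⟨h1, h2⟩ | ⟨h1, h2⟩)
        · exact ⟨hAM h2, h1⟩
        · exact ⟨hA'M h2, h1⟩
      · rintro ⟨h1, h2⟩
        have := hSB h2
        rw [hB] at this
        rcases this with h3 | h3 | h3
        · exact absurd h1 (Set.disjoint_left.1 hM01 h3)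
        · exact Or.inl ⟨h2, h3⟩
        · exact Or.inr ⟨h2, h3⟩
    · rw [Set.disjoint_left]
      rintro x ⟨-, h1⟩ ⟨-, h2⟩
      exact Set.disjoint_left.1 hAA' h1 h2

/-- **Two Friedberg splittings of one simple set.** There are a simple set `B` and two Friedberg
splittings of `B` such that no automorphism of the lattice of r.e. sets maps the first half of the
first one to the first half of the second one. -/
theorem main : ∃ B A A1 G0 G1 : Set ℕ, ∃ (_ : RE B) (hA : RE A) (_ : RE A1) (hG0 : RE G0)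
    (_ : RE G1),
    Bᶜ.Infinite ∧ (∀ V : Set ℕ, RE V → V ∩ B = ∅ → V.Finite) ∧
    Disjoint A A1 ∧ A ∪ A1 = B ∧
    (∀ V : Set ℕ, RE V → (V ∩ A = ∅ ∨ V ∩ A1 = ∅) → (V \ B).Finite) ∧
    Disjoint G0 G1 ∧ G0 ∪ G1 = B ∧
    (∀ V : Set ℕ, RE V → (V ∩ G0 = ∅ ∨ V ∩ G1 = ∅) → (V \ B).Finite) ∧
    ∀ Φ : E ≃o E, (Φ ⟨A, hA⟩).1 ≠ G0 := by
  obtain ⟨A, A1, M0, M1, hA, hA1, hM0, hM1, hAd, hco, hsimple, hfr, hMd, hMB, hBM, hMr, hspec⟩ :=
    exists_special
  have hBre : RE (A ∪ A1) := hA.union hA1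
  obtain ⟨G0, G1, hG0, hG1, hGd, hGB, hGV, hGS⟩ := Three.exists_generic hBre
  have hGf : ∀ V : Set ℕ, RE V → (V ∩ G0 = ∅ ∨ V ∩ G1 = ∅) → (V \ (A ∪ A1)).Finite := by
    intro V hV hd
    refine hsimple _ (hGV V hV hd) ?_
    ext x
    constructor
    · rintro ⟨⟨-, h1⟩, h2⟩
      exact h1 h2
    · intro h
      exact absurd h (Set.notMem_empty x)
  refine ⟨A ∪ A1, A, A1, G0, G1, hBre, hA, hA1, hG0, hG1, hco, hsimple, hAd, rfl, hfr, hGd, hGB,
    hGf, ?_⟩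
  intro Φ hΦ
  -- the images
  set a1 : Set ℕ := (Φ (mk hA1)).1 with ha1
  set b : Set ℕ := (Φ (mk hBre)).1 with hb
  have hM : RE (M0 ∪ M1) := hM0.union hM1
  set μ : Set ℕ := (Φ (mk hM)).1 with hμ
  set s0 : Set ℕ := (Φ (mk hM0)).1 with hs0
  set t0 : Set ℕ := (Φ (mk hM1)).1 with ht0
  have ha1r : RE a1 := (Φ (mk hA1)).2
  have hbr : RE b := (Φ (mk hBre)).2
  have hμr : RE μ := (Φ (mk hM)).2
  have hs0r : RE s0 := (Φ (mk hM0)).2
  have ht0r : RE t0 := (Φ (mk hM1)).2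
  have hΦA : (Φ (mk hA)).1 = G0 := hΦ
  have hb1 : b = G0 ∪ a1 := by
    rw [hb, aut_union Φ (X := mk hA) (Y := mk hA1) (Z := mk hBre) rfl, hΦA]
  have hda : Disjoint G0 a1 := by
    rw [← hΦA]
    exact aut_disjoint Φ hAd
  have hμ1 : μ = s0 ∪ t0 := aut_union Φ (X := mk hM0) (Y := mk hM1) (Z := mk hM) rfl
  have hst : Disjoint s0 t0 := aut_disjoint Φ hMd
  have hs0b : s0 ⊆ b := (aut_sub Φ).2 hMB
  have hbμ : b ⊆ μ := (aut_sub Φ).2 hBM
  have hs0rec : ¬ Rec s0 := by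
    intro h
    have := aut_rec Φ.symm (X := Φ (mk hM0)) h
    rw [OrderIso.symm_apply_apply] at this
    exact hMr this
  have hG1b : (G1 \ b).Finite := by
    have h1 : Disjoint (Φ.symm (mk hG1)).1 (Φ.symm (mk hG0)).1 := aut_disjoint Φ.symm hGd.symm
    have h2 : Φ.symm (mk hG0) = mk hA := by
      rw [OrderIso.symm_apply_eq]
      exact Subtype.ext hΦA.symm
    rw [h2] at h1
    have h3 : ((Φ.symm (mk hG1)).1 \ (mk hBre).1).Finite :=
      hfr _ (Φ.symm (mk hG1)).2 (Or.inl (Set.disjoint_iff_inter_eq_empty.1 h1))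
    have h4 := aut_almost Φ h3
    rw [OrderIso.apply_symm_apply] at h4
    exact h4
  have ha1B : (a1 \ (A ∪ A1)).Finite :=
    hGf a1 ha1r (Or.inl (Set.disjoint_iff_inter_eq_empty.1 hda.symm))
  have hbB : (b \ (A ∪ A1)).Finite := by
    refine ha1B.subset ?_
    rintro x ⟨hx1, hx2⟩
    rw [hb1] at hx1
    rcases hx1 with h | h
    · exact absurd (hGB ▸ Or.inl h) hx2
    · exact ⟨h, hx2⟩
  have hBb : ((A ∪ A1) \ b).Finite := by
    refine hG1b.subset ?_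
    rintro x ⟨hx1, hx2⟩
    rw [← hGB] at hx1
    rcases hx1 with h | h
    · exact absurd (hb1 ▸ Or.inl h) hx2
    · exact ⟨h, hx2⟩
  have hG0b : G0 ⊆ b := by rw [hb1]; exact Set.subset_union_left
  -- transfer of the special property
  have hspec' : ∀ S T : Set ℕ, RE S → RE T → Disjoint S T → S ∪ T = μ → S ⊆ b →
      Rec (S ∩ G0) := by
    intro S T hS hT hd hU hSb
    have e1 : Disjoint (Φ.symm (mk hS)).1 (Φ.symm (mk hT)).1 := aut_disjoint Φ.symm hd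
    have e2 : (Φ.symm (mk hS)).1 ∪ (Φ.symm (mk hT)).1 = M0 ∪ M1 := by
      rw [← aut_union Φ.symm (X := mk hS) (Y := mk hT) (Z := Φ (mk hM)) hU.symm,
        OrderIso.symm_apply_apply]
      rfl
    have e3 : (Φ.symm (mk hS)).1 ⊆ A ∪ A1 := by
      have h1 : (Φ.symm (mk hS)).1 ⊆ (Φ.symm (Φ (mk hBre))).1 := (aut_sub Φ.symm).2 hSb
      rw [OrderIso.symm_apply_apply] at h1
      exact h1
    have e4 := hspec _ _ (Φ.symm (mk hS)).2 (Φ.symm (mk hT)).2 e1 e2 e3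
    have hI : RE ((Φ.symm (mk hS)).1 ∩ A) := e4.1
    have e5 := aut_rec Φ (X := mk hI) e4
    rw [aut_inter Φ (X := Φ.symm (mk hS)) (Y := mk hA) (Z := mk hI) rfl,
      OrderIso.apply_symm_apply, hΦA] at e5
    exact e5
  -- the modified splitting
  have hf1 : (s0 \ (A ∪ A1)).Finite := hbB.subset fun x hx => ⟨hs0b hx.1, hx.2⟩
  have hf2 : ((A ∪ A1) \ μ).Finite := hBb.subset fun x hx => ⟨hx.1, fun h => hx.2 (hbμ h)⟩
  have hSr : RE (s0 ∩ (A ∪ A1)) := hs0r.inter hBre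
  have hTr : RE (t0 ∪ ((s0 \ (A ∪ A1)) ∪ ((A ∪ A1) \ μ))) :=
    ht0r.union ((RE_finite hf1).union (RE_finite hf2))
  have hx1 : Disjoint (s0 ∩ (A ∪ A1)) (t0 ∪ ((s0 \ (A ∪ A1)) ∪ ((A ∪ A1) \ μ))) := by
    rw [Set.disjoint_left]
    rintro x ⟨h1, h2⟩ (h3 | h3 | h3)
    · exact Set.disjoint_left.1 hst h1 h3
    · exact h3.2 h2
    · exact h3.2 (hbμ (hs0b h1))
  have hx2 : A ∪ A1 ⊆ (s0 ∩ (A ∪ A1)) ∪ (t0 ∪ ((s0 \ (A ∪ A1)) ∪ ((A ∪ A1) \ μ))) := by
    intro x hx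
    by_cases hxμ : x ∈ μ
    · rw [hμ1] at hxμ
      rcases hxμ with h | h
      · exact Or.inl ⟨h, hx⟩
      · exact Or.inr (Or.inl h)
    · exact Or.inr (Or.inr (Or.inr ⟨hx, hxμ⟩))
  have hx3 : ¬ Rec (s0 ∩ (A ∪ A1)) := by
    intro h
    refine hs0rec (h.of_fin ?_ ?_)
    · refine Set.finite_empty.subset ?_
      rintro x ⟨⟨h1, -⟩, h2⟩
      exact h2 h1
    · refine hf1.subset ?_
      rintro x ⟨h1, h2⟩
      exact ⟨h1, fun h3 => h2 ⟨h1, h3⟩⟩
  obtain ⟨V, hV, hVB, hVU, hVG⟩ := hGS _ _ hSr hTr hx1 Set.inter_subset_right hx2 hx3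
  · -- transfer back
    have hf3 : ((V \ b) ∩ μ).Finite := hBb.subset fun x hx => ⟨hVB hx.1.1, hx.1.2⟩
    have hT' : RE (μ \ (V ∩ b)) := by
      refine ((hVU.inter hμr).union (RE_finite hf3)).of_eq ?_
      ext x
      constructor
      · rintro (⟨⟨-, h1⟩, h2⟩ | ⟨⟨-, h1⟩, h2⟩)
        · exact ⟨h2, fun h => h1 h.1⟩
        · exact ⟨h2, fun h => h1 h.2⟩
      · rintro ⟨h1, h2⟩
        by_cases hxV : x ∈ V
        · exact Or.inr ⟨⟨hxV, fun h => h2 ⟨hxV, h⟩⟩, h1⟩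
        · refine Or.inl ⟨⟨?_, hxV⟩, h1⟩
          rw [hμ1] at h1
          rcases h1 with h | h
          · by_cases hxB : x ∈ A ∪ A1
            · exact Or.inl ⟨h, hxB⟩
            · exact Or.inr (Or.inr (Or.inl ⟨h, hxB⟩))
          · exact Or.inr (Or.inl h)
    have := hspec' (V ∩ b) (μ \ (V ∩ b)) (hV.inter hbr) hT'
      (Set.disjoint_left.2 fun x h1 h2 => h2.2 h1) (by
        ext x
        constructor
        · rintro (h | h)
          · exact hbμ h.2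
          · exact h.1
        · intro h
          by_cases h' : x ∈ V ∩ b
          · exact Or.inl h'
          · exact Or.inr ⟨h, h'⟩) Set.inter_subset_right
    refine hVG ?_
    have e : V ∩ b ∩ G0 = V ∩ G0 := by
      rw [Set.inter_assoc, Set.inter_eq_right.2 hG0b]
    rw [← e]
    exact this

end Pool.Agent.V8H40.FS
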