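import Mathlib

/-!
# Recursively enumerable sets: basic tools and a generic stage construction
-/

set_option autoImplicit false

namespace Pool.Agent.V8H40.FS

open Nat.Partrec (Code)
open Nat.Partrec.Code

/-- recursively enumerable sets of numbers -/
def RE (A : Set ℕ) : Prop := REPred fun n : ℕ => n ∈ A

/-- the part enumerated by stage `s` of the `e`-th recursively enumerable set -/
def W (e s x : ℕ) : Prop := (evaln s (Denumerable.ofNat Code e) x).isSome = true

theorem W_mono {e s t x : ℕ} (hst : s ≤ t) (h : W e s x) : W e t x := by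
  unfold W at *
  rw [Option.isSome_iff_exists] at *
  obtain ⟨y, hy⟩ := h
  exact ⟨y, evaln_mono hst hy⟩

theorem W_prim : PrimrecPred fun a : (ℕ × ℕ) × ℕ => W a.1.1 a.1.2 a.2 := by
  have h1 : Primrec fun a : (ℕ × ℕ) × ℕ => evaln a.1.2 (Denumerable.ofNat Code a.1.1) a.2 :=
    primrec_evaln.comp (Primrec.pair (Primrec.pair (Primrec.snd.comp Primrec.fst)
      ((Primrec.ofNat Code).comp (Primrec.fst.comp Primrec.fst))) Primrec.snd)
  have h2 : Primrec fun a : (ℕ × ℕ) × ℕ =>
      (evaln a.1.2 (Denumerable.ofNat Code a.1.1) a.2).isSome := Primrec.option_isSome.comp h1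
  exact Primrec.eq.comp h2 (Primrec.const true)

/-- closure of `PrimrecPred` for `W` -/
theorem W_comp {α : Type*} [Primcodable α] {f g h : α → ℕ} (hf : Primrec f) (hg : Primrec g)
    (hh : Primrec h) : PrimrecPred fun a => W (f a) (g a) (h a) :=
  W_prim.comp ((hf.pair hg).pair hh)

theorem RE_W (e : ℕ) : RE {x | ∃ s, W e s x} := by
  have h : Partrec fun x : ℕ => eval (Denumerable.ofNat Code e) x :=
    (eval_part.comp (Computable.const _) Computable.id)
  refine h.dom_re.of_eq fun x => ?_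
  constructor
  · intro hx
    obtain ⟨y, hy⟩ := Part.dom_iff_mem.1 hx
    obtain ⟨k, hk⟩ := evaln_complete.1 hy
    refine ⟨k, ?_⟩
    unfold W
    rw [Option.isSome_iff_exists]
    exact ⟨y, hk⟩
  · rintro ⟨s, hs⟩
    unfold W at hs
    rw [Option.isSome_iff_exists] at hs
    obtain ⟨y, hy⟩ := hs
    exact Part.dom_iff_mem.2 ⟨y, evaln_sound hy⟩

theorem exists_W {A : Set ℕ} (hA : RE A) : ∃ e, ∀ x, x ∈ A ↔ ∃ s, W e s x := by
  have h1 : Partrec fun a : ℕ => (Part.assert (a ∈ A) fun _ => Part.some () : Part Unit) := hA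
  have h2 : Partrec fun a : ℕ =>
      (Part.assert (a ∈ A) fun _ => Part.some () : Part Unit).map fun _ => (0 : ℕ) :=
    h1.map (Computable.const 0).to₂
  obtain ⟨c, hc⟩ := exists_code.1 (Partrec.nat_iff.1 h2)
  refine ⟨Encodable.encode c, fun x => ?_⟩
  have h3 : (eval c x).Dom ↔ x ∈ A := by
    rw [hc]
    simp [Part.assert]
  rw [← h3]
  constructor
  · intro hx
    obtain ⟨y, hy⟩ := Part.dom_iff_mem.1 hx
    obtain ⟨k, hk⟩ := evaln_complete.1 hy
    refine ⟨k, ?_⟩
    unfold W
    rw [Option.isSome_iff_exists, Denumerable.ofNat_encode]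
    exact ⟨y, hk⟩
  · rintro ⟨s, hs⟩
    unfold W at hs
    rw [Option.isSome_iff_exists, Denumerable.ofNat_encode] at hs
    obtain ⟨y, hy⟩ := hs
    exact Part.dom_iff_mem.2 ⟨y, evaln_sound hy⟩

/-- `Σ₁` definitions give recursively enumerable sets -/
theorem RE_of_prim {P : ℕ → ℕ → Prop} (hP : PrimrecPred fun a : ℕ × ℕ => P a.1 a.2) :
    RE {x | ∃ s, P x s} := by
  classical
  obtain ⟨hd, hP⟩ := hP
  have h1 : Partrec fun x : ℕ => Nat.rfind fun s => Part.some (decide (P x s)) := by
    refine Partrec.rfind ?_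
    exact (hP.to_comp.partrec).of_eq fun a => by simp
  refine h1.dom_re.of_eq fun x => ?_
  refine Iff.trans (Nat.rfind_dom (p := fun s => (Part.some (decide (P x s)) : Part Bool))) ?_
  simp

theorem RE.exists_prim {A : Set ℕ} (hA : RE A) :
    ∃ P : ℕ → ℕ → Prop, PrimrecPred (fun a : ℕ × ℕ => P a.1 a.2) ∧
      (∀ x s t, s ≤ t → P x s → P x t) ∧ ∀ x, x ∈ A ↔ ∃ s, P x s := by
  obtain ⟨e, he⟩ := exists_W hA
  exact ⟨fun x s => W e s x, W_comp (Primrec.const e) Primrec.snd Primrec.fst,
    fun x s t hst h => W_mono hst h, he⟩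

theorem RE.of_eq {A B : Set ℕ} (hA : RE A) (h : A = B) : RE B := h ▸ hA

theorem RE.union {A B : Set ℕ} (hA : RE A) (hB : RE B) : RE (A ∪ B) := by
  obtain ⟨P, hP, hPm, hPA⟩ := hA.exists_prim
  obtain ⟨Q, hQ, hQm, hQB⟩ := hB.exists_prim
  refine (RE_of_prim (P := fun x s => P x s ∨ Q x s) (hP.or hQ)).of_eq ?_
  ext x
  simp only [Set.mem_ofPred_eq, Set.mem_union, hPA, hQB, exists_or]

theorem RE.inter {A B : Set ℕ} (hA : RE A) (hB : RE B) : RE (A ∩ B) := by
  obtain ⟨P, hP, hPm, hPA⟩ := hA.exists_prim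
  obtain ⟨Q, hQ, hQm, hQB⟩ := hB.exists_prim
  refine (RE_of_prim (P := fun x s => P x s ∧ Q x s) (hP.and hQ)).of_eq ?_
  ext x
  simp only [Set.mem_ofPred_eq, Set.mem_inter_iff, hPA, hQB]
  constructor
  · rintro ⟨s, h1, h2⟩
    exact ⟨⟨s, h1⟩, ⟨s, h2⟩⟩
  · rintro ⟨⟨s, h1⟩, ⟨t, h2⟩⟩
    exact ⟨max s t, hPm _ _ _ (le_max_left _ _) h1, hQm _ _ _ (le_max_right _ _) h2⟩

theorem RE_prim {P : ℕ → Prop} (hP : PrimrecPred P) : RE {x | P x} := by
  refine (RE_of_prim (P := fun x _ => P x) (hP.comp Primrec.fst)).of_eq ?_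
  ext x; simp

theorem RE_univ : RE Set.univ := by
  refine (RE_prim (P := fun x => x = x) (Primrec.eq.comp Primrec.id Primrec.id)).of_eq ?_
  ext x; simp

theorem RE_finite {F : Set ℕ} (hF : F.Finite) : RE F := by
  obtain ⟨l, hl⟩ : ∃ l : List ℕ, ∀ x, x ∈ F ↔ x ∈ l := by
    refine ⟨hF.toFinset.toList, fun x => by simp⟩
  have : PrimrecPred fun x : ℕ => x ∈ l := by
    have h : PrimrecRel fun (L : List ℕ) (b : ℕ) => ∃ a ∈ L, a = b :=
      PrimrecRel.exists_mem_list Primrec.eq
    exact (h.comp (Primrec.const l) Primrec.id).of_eq fun x => by simp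
  refine (RE_prim this).of_eq ?_
  ext x; simp [hl]

theorem RE_cofinite {F : Set ℕ} (hF : F.Finite) : RE Fᶜ := by
  obtain ⟨l, hl⟩ : ∃ l : List ℕ, ∀ x, x ∈ F ↔ x ∈ l := by
    refine ⟨hF.toFinset.toList, fun x => by simp⟩
  have : PrimrecPred fun x : ℕ => x ∈ l := by
    have h : PrimrecRel fun (L : List ℕ) (b : ℕ) => ∃ a ∈ L, a = b :=
      PrimrecRel.exists_mem_list Primrec.eq
    exact (h.comp (Primrec.const l) Primrec.id).of_eq fun x => by simp
  refine (RE_prim this.not).of_eq ?_
  ext x; simp [hl]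

theorem RE.diff_finite {A F : Set ℕ} (hA : RE A) (hF : F.Finite) : RE (A \ F) :=
  hA.inter (RE_cofinite hF)

/-- the set `A` is recursive: it and its complement are recursively enumerable -/
def Rec (A : Set ℕ) : Prop := RE A ∧ RE Aᶜ

theorem Rec.compl {A : Set ℕ} (hA : Rec A) : Rec Aᶜ := ⟨hA.2, by rw [compl_compl]; exact hA.1⟩

theorem Rec.inter {A B : Set ℕ} (hA : Rec A) (hB : Rec B) : Rec (A ∩ B) :=
  ⟨hA.1.inter hB.1, by rw [Set.compl_inter]; exact hA.2.union hB.2⟩

theorem Rec.union {A B : Set ℕ} (hA : Rec A) (hB : Rec B) : Rec (A ∪ B) :=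
  ⟨hA.1.union hB.1, by rw [Set.compl_union]; exact hA.2.inter hB.2⟩

theorem Rec_finite {F : Set ℕ} (hF : F.Finite) : Rec F := ⟨RE_finite hF, RE_cofinite hF⟩

theorem Rec.of_fin {A B : Set ℕ} (hA : Rec A) (h1 : (A \ B).Finite) (h2 : (B \ A).Finite) :
    Rec B := by
  have : B = (A ∩ (A \ B)ᶜ) ∪ (B \ A) := by
    ext x
    by_cases h : x ∈ A <;> by_cases h' : x ∈ B <;> simp [h, h']
  rw [this]
  exact (hA.inter (Rec_finite h1).compl).union (Rec_finite h2)

/-- a recursive set split into two recursively enumerable parts: both are recursive -/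
theorem Rec.split {A B C : Set ℕ} (hA : Rec A) (hB : RE B) (hC : RE C) (h : B ∪ C = A)
    (hd : Disjoint B C) : Rec B := by
  refine ⟨hB, ?_⟩
  have : Bᶜ = Aᶜ ∪ C := by
    ext x
    constructor
    · intro hx
      by_cases hxA : x ∈ A
      · rw [← h] at hxA
        rcases hxA with h1 | h1
        · exact absurd h1 hx
        · exact Or.inr h1
      · exact Or.inl hxA
    · rintro (h1 | h1) h2
      · exact h1 (h ▸ Or.inl h2)
      · exact (Set.disjoint_left.1 hd h2 h1)
  rw [this]
  exact hA.2.union hC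

/-- a one-shot enumeration of a recursively enumerable set -/
theorem RE.exists_enum {A : Set ℕ} (hA : RE A) :
    ∃ β : ℕ → Option ℕ, Primrec β ∧ (∀ x, x ∈ A ↔ ∃ s, β s = some x) ∧
      ∀ x s t, β s = some x → β t = some x → s = t := by
  classical
  obtain ⟨P, hP, -, hPA⟩ := hA.exists_prim
  have hQ : PrimrecRel fun (n : ℕ) (x : ℕ) => ∃ t < n, P x t :=
    PrimrecRel.exists_lt (R := fun t x => P x t) (hP.comp (Primrec.snd.pair Primrec.fst))
  let Q : ℕ → Prop := fun s => P s.unpair.1 s.unpair.2 ∧ ¬ ∃ t < s.unpair.2, P s.unpair.1 t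
  have hQ' : PrimrecPred Q := by
    refine PrimrecPred.and ?_ (PrimrecPred.not ?_)
    · exact hP.comp ((Primrec.fst.comp Primrec.unpair).pair (Primrec.snd.comp Primrec.unpair))
    · exact hQ.comp (Primrec.snd.comp Primrec.unpair) (Primrec.fst.comp Primrec.unpair)
  refine ⟨fun s => if Q s then some s.unpair.1 else none, ?_, ?_, ?_⟩
  · exact Primrec.ite hQ' (Primrec.option_some.comp (Primrec.fst.comp Primrec.unpair))
      (Primrec.const none)
  · intro x
    rw [hPA]
    constructor
    · intro h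
      refine ⟨Nat.pair x (Nat.find h), ?_⟩
      have : Q (Nat.pair x (Nat.find h)) := by
        simp only [Q, Nat.unpair_pair]
        refine ⟨Nat.find_spec h, ?_⟩
        rintro ⟨t, ht, h'⟩
        exact Nat.find_min h ht h'
      simp only [if_pos this, Nat.unpair_pair]
    · rintro ⟨s, hs⟩
      beta_reduce at hs
      by_cases hq : Q s
      · rw [if_pos hq, Option.some_inj] at hs
        exact ⟨s.unpair.2, hs ▸ hq.1⟩
      · rw [if_neg hq] at hs
        exact absurd hs (by simp)
  · intro x s t hs ht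
    have key : ∀ s, (if Q s then some s.unpair.1 else none) = some x →
        s.unpair.1 = x ∧ P x s.unpair.2 ∧ ∀ t < s.unpair.2, ¬ P x t := by
      intro s hs
      by_cases hq : Q s
      · rw [if_pos hq, Option.some_inj] at hs
        refine ⟨hs, hs ▸ hq.1, fun t ht h => hq.2 ⟨t, ht, hs ▸ h⟩⟩
      · rw [if_neg hq] at hs
        exact absurd hs (by simp)
    obtain ⟨a1, a2, a3⟩ := key s hs
    obtain ⟨b1, b2, b3⟩ := key t ht
    have : s.unpair.2 = t.unpair.2 := by
      rcases lt_trichotomy s.unpair.2 t.unpair.2 with h | h | h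
      · exact absurd a2 (b3 _ h)
      · exact h
      · exact absurd b2 (a3 _ h)
    rw [← Nat.pair_unpair s, ← Nat.pair_unpair t, a1, b1, this]

/-! ### The generic construction -/

/-- a history: entry `t` records the action `(n, z)` at stage `t`, if there is one -/
abbrev Hist := List (Option (ℕ × ℕ))

open Classical in
/-- the action after the history `L`: the element considered is `Z L.length`, and the least
requirement `n` below the length of `L` with `C n L z` acts -/
noncomputable def act (Z : ℕ → Option ℕ) (C : ℕ → Hist → ℕ → Prop) (L : Hist) :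
    Option (ℕ × ℕ) :=
  (Z L.length).bind fun z =>
    (((List.range L.length).filter (fun n => C n L z)).head?).map fun n => (n, z)

/-- the history at stage `s` -/
noncomputable def log (Z : ℕ → Option ℕ) (C : ℕ → Hist → ℕ → Prop) : ℕ → Hist
  | 0 => []
  | s + 1 => log Z C s ++ [act Z C (log Z C s)]

variable {Z : ℕ → Option ℕ} {C : ℕ → Hist → ℕ → Prop}

@[simp] theorem length_log (s : ℕ) : (log Z C s).length = s := by
  induction s with
  | zero => rfl
  | succ s ih => simp [log, ih]

theorem act_prim (hZ : Primrec Z)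
    (hC : PrimrecPred fun a : (ℕ × Hist) × ℕ => C a.1.1 a.1.2 a.2) : Primrec (act Z C) := by
  classical
  unfold act
  refine Primrec.option_bind (hZ.comp Primrec.list_length) ?_
  refine Primrec.option_map ?_ ?_
  · refine Primrec.list_head?.comp ?_
    have h1 : PrimrecRel fun (n : ℕ) (b : Hist × ℕ) => C n b.1 b.2 :=
      hC.comp ((Primrec.fst.pair (Primrec.fst.comp Primrec.snd)).pair
        (Primrec.snd.comp Primrec.snd))
    exact (PrimrecRel.listFilter h1).comp
      (Primrec.list_range.comp (Primrec.list_length.comp Primrec.fst))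
      (Primrec.fst.pair Primrec.snd)
  · exact Primrec.snd.pair (Primrec.snd.comp Primrec.fst)

theorem log_prim (hZ : Primrec Z)
    (hC : PrimrecPred fun a : (ℕ × Hist) × ℕ => C a.1.1 a.1.2 a.2) : Primrec (log Z C) := by
  have h := Primrec.nat_rec (f := fun _ : Unit => ([] : Hist))
    (g := fun (_ : Unit) (p : ℕ × Hist) => p.2 ++ [act Z C p.2]) (Primrec.const [])
    (Primrec.list_append.comp (Primrec.snd.comp Primrec.snd)
      (Primrec.list_cons.comp ((act_prim hZ hC).comp (Primrec.snd.comp Primrec.snd))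
        (Primrec.const [])))
  refine (h.comp (Primrec.const ()) Primrec.id).of_eq fun s => ?_
  induction s with
  | zero => rfl
  | succ s ih =>
    simp only [id] at ih ⊢
    rw [log, ← ih]

/-- the action at stage `s` -/
noncomputable def A (Z : ℕ → Option ℕ) (C : ℕ → Hist → ℕ → Prop) (s : ℕ) : Option (ℕ × ℕ) :=
  act Z C (log Z C s)

theorem A_prim (hZ : Primrec Z)
    (hC : PrimrecPred fun a : (ℕ × Hist) × ℕ => C a.1.1 a.1.2 a.2) : Primrec (A Z C) :=
  (act_prim hZ hC).comp (log_prim hZ hC)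

theorem mem_log {s : ℕ} {a : Option (ℕ × ℕ)} : a ∈ log Z C s ↔ ∃ t < s, A Z C t = a := by
  induction s with
  | zero => simp [log]
  | succ s ih =>
    rw [log, List.mem_append, List.mem_singleton, ih]
    constructor
    · rintro (⟨t, ht, h⟩ | h)
      · exact ⟨t, by omega, h⟩
      · exact ⟨s, by omega, h.symm⟩
    · rintro ⟨t, ht, h⟩
      rcases Nat.lt_succ_iff_lt_or_eq.1 ht with h' | h'
      · exact Or.inl ⟨t, h', h⟩
      · subst h'
        exact Or.inr h.symm

theorem take_log {s t : ℕ} (h : t ≤ s) : (log Z C s).take t = log Z C t := by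
  induction s with
  | zero =>
    obtain rfl : t = 0 := by omega
    rfl
  | succ s ih =>
    rcases Nat.lt_succ_iff_lt_or_eq.1 (Nat.lt_succ_of_le h) with h' | h'
    · rw [log, List.take_append_of_le_length (by rw [length_log]; omega)]
      exact ih (by omega)
    · subst h'
      rw [List.take_of_length_le (by simp)]

theorem A_eq_some {s n z : ℕ} : A Z C s = some (n, z) ↔
    Z s = some z ∧ n < s ∧ C n (log Z C s) z ∧ ∀ m < n, ¬ C m (log Z C s) z := by
  classical
  unfold A act
  rw [length_log]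
  constructor
  · intro h
    rw [Option.bind_eq_some_iff] at h
    obtain ⟨z', h1, h2⟩ := h
    rw [Option.map_eq_some_iff] at h2
    obtain ⟨n', h3, h4⟩ := h2
    simp only [Prod.mk.injEq] at h4
    obtain ⟨rfl, rfl⟩ := h4
    rw [List.head?_filter, List.find?_range_eq_some] at h3
    simp only [decide_eq_true_eq, List.mem_range] at h3
    refine ⟨h1, h3.2.1, h3.1, fun m hm => ?_⟩
    have := h3.2.2 m hm
    simpa using this
  · rintro ⟨h1, h2, h3, h4⟩
    rw [h1, Option.bind_some, Option.map_eq_some_iff]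
    refine ⟨n, ?_, rfl⟩
    rw [List.head?_filter, List.find?_range_eq_some]
    simp only [decide_eq_true_eq, List.mem_range]
    exact ⟨h3, h2, fun m hm => by simpa using h4 m hm⟩

/-- if some requirement wants to act, then one that is at least as important acts -/
theorem exists_act {s n z : ℕ} (h1 : Z s = some z) (h2 : n < s) (h3 : C n (log Z C s) z) :
    ∃ m ≤ n, A Z C s = some (m, z) := by
  classical
  have hex : ∃ m, C m (log Z C s) z := ⟨n, h3⟩
  refine ⟨Nat.find hex, Nat.find_min' hex h3, ?_⟩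
  rw [A_eq_some]
  exact ⟨h1, lt_of_le_of_lt (Nat.find_min' hex h3) h2, Nat.find_spec hex,
    fun m hm => Nat.find_min hex hm⟩

end Pool.Agent.V8H40.FS
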