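import Pool.Agent.V8H40.FS.Base

/-!
# Two disjoint r.e. sets meeting all r.e. sets that are not almost contained in their union
-/

set_option autoImplicit false

namespace Pool.Agent.V8H40.FS

/-- the requirement `n` has acted -/
def Sat (L : Hist) (n : ℕ) : Prop := ∃ a ∈ L, a.map Prod.fst = some n

/-- the element `x` has been used -/
def Used (L : Hist) (x : ℕ) : Prop := ∃ a ∈ L, a.map Prod.snd = some x

theorem Sat_prim : PrimrecRel Sat := by
  have h : PrimrecRel fun (a : Option (ℕ × ℕ)) (n : ℕ) => a.map Prod.fst = some n := by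
    refine Primrec.eq.comp ?_ ?_
    · exact Primrec.option_map Primrec.fst (Primrec.fst.comp Primrec.snd).to₂
    · exact Primrec.option_some.comp Primrec.snd
  exact h.exists_mem_list

theorem Used_prim : PrimrecRel Used := by
  have h : PrimrecRel fun (a : Option (ℕ × ℕ)) (n : ℕ) => a.map Prod.snd = some n := by
    refine Primrec.eq.comp ?_ ?_
    · exact Primrec.option_map Primrec.fst (Primrec.snd.comp Primrec.snd).to₂
    · exact Primrec.option_some.comp Primrec.snd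
  exact h.exists_mem_list

variable {Z : ℕ → Option ℕ} {C : ℕ → Hist → ℕ → Prop}

theorem sat_log {s n : ℕ} : Sat (log Z C s) n ↔ ∃ t < s, ∃ x, A Z C t = some (n, x) := by
  unfold Sat
  constructor
  · rintro ⟨a, ha, h⟩
    obtain ⟨t, ht, rfl⟩ := mem_log.1 ha
    rw [Option.map_eq_some_iff] at h
    obtain ⟨⟨n', x⟩, h1, rfl⟩ := h
    exact ⟨t, ht, x, h1⟩
  · rintro ⟨t, ht, x, h⟩
    exact ⟨_, mem_log.2 ⟨t, ht, h⟩, rfl⟩

theorem used_log {s x : ℕ} : Used (log Z C s) x ↔ ∃ t < s, ∃ n, A Z C t = some (n, x) := by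
  unfold Used
  constructor
  · rintro ⟨a, ha, h⟩
    obtain ⟨t, ht, rfl⟩ := mem_log.1 ha
    rw [Option.map_eq_some_iff] at h
    obtain ⟨⟨n, x'⟩, h1, rfl⟩ := h
    exact ⟨t, ht, n, h1⟩
  · rintro ⟨t, ht, n, h⟩
    exact ⟨_, mem_log.2 ⟨t, ht, h⟩, rfl⟩

theorem unique_n (hC : ∀ n L z, C n L z → ¬ Sat L n) {s t n x y : ℕ}
    (h1 : A Z C s = some (n, x)) (h2 : A Z C t = some (n, y)) : s = t := by
  rcases lt_trichotomy s t with h | h | h
  · exact absurd (sat_log.2 ⟨s, h, x, h1⟩) (hC _ _ _ (A_eq_some.1 h2).2.2.1)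
  · exact h
  · exact absurd (sat_log.2 ⟨t, h, y, h2⟩) (hC _ _ _ (A_eq_some.1 h1).2.2.1)

theorem unique_x (hC : ∀ n L z, C n L z → ¬ Used L z) {s t n m x : ℕ}
    (h1 : A Z C s = some (n, x)) (h2 : A Z C t = some (m, x)) : s = t := by
  rcases lt_trichotomy s t with h | h | h
  · exact absurd (used_log.2 ⟨s, h, n, h1⟩) (hC _ _ _ (A_eq_some.1 h2).2.2.1)
  · exact h
  · exact absurd (used_log.2 ⟨t, h, m, h2⟩) (hC _ _ _ (A_eq_some.1 h1).2.2.1)

/-- the set of the elements used by the requirements congruent to `i` modulo two -/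
def Side (Z : ℕ → Option ℕ) (C : ℕ → Hist → ℕ → Prop) (i : ℕ) : Set ℕ :=
  {x | ∃ s n, A Z C s = some (n, x) ∧ n % 2 = i}

theorem Side_RE (hZ : Primrec Z)
    (hC : PrimrecPred fun a : (ℕ × Hist) × ℕ => C a.1.1 a.1.2 a.2) (i : ℕ) :
    RE (Side Z C i) := by
  have h : PrimrecPred fun a : ℕ × ℕ =>
      (A Z C a.2).map (fun p => (p.1 % 2, p.2)) = some (i, a.1) := by
    refine Primrec.eq.comp ?_ ?_
    · refine Primrec.option_map ((A_prim hZ hC).comp Primrec.snd) ?_
      exact (Primrec.nat_mod.comp (Primrec.fst.comp Primrec.snd) (Primrec.const 2)).pair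
        (Primrec.snd.comp Primrec.snd)
    · exact Primrec.option_some.comp ((Primrec.const i).pair Primrec.fst)
  refine (RE_of_prim (P := fun x s => (A Z C s).map (fun p => (p.1 % 2, p.2)) = some (i, x))
    h).of_eq ?_
  ext x
  constructor
  · rintro ⟨s, hs⟩
    rw [Option.map_eq_some_iff] at hs
    obtain ⟨⟨n, y⟩, h1, h2⟩ := hs
    simp only [Prod.mk.injEq] at h2
    obtain ⟨h2, rfl⟩ := h2
    exact ⟨s, n, h1, h2⟩
  · rintro ⟨s, n, h1, h2⟩
    exact ⟨s, by rw [h1]; simp [h2]⟩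

theorem mem_side {s n x : ℕ} (h : A Z C s = some (n, x)) : x ∈ Side Z C 0 ∪ Side Z C 1 := by
  rcases Nat.mod_two_eq_zero_or_one n with h' | h'
  · exact Or.inl ⟨s, n, h, h'⟩
  · exact Or.inr ⟨s, n, h, h'⟩

theorem side_disjoint (hC : ∀ n L z, C n L z → ¬ Used L z) :
    Disjoint (Side Z C 0) (Side Z C 1) := by
  rw [Set.disjoint_left]
  rintro x ⟨s, n, h1, h2⟩ ⟨t, m, h3, h4⟩
  have := unique_x hC h1 h3
  subst this
  rw [h1] at h3
  simp only [Option.some.injEq, Prod.mk.injEq, and_true] at h3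
  omega

namespace One

/-- the condition of the first construction -/
def C1 (n : ℕ) (L : Hist) (x : ℕ) : Prop := ¬ Sat L n ∧ ¬ Used L x ∧ 2 * n < x ∧ W (n / 2) L.length x

/-- the elements considered -/
def Z1 (s : ℕ) : Option ℕ := some s.unpair.1

theorem Z1_prim : Primrec Z1 := Primrec.option_some.comp (Primrec.fst.comp Primrec.unpair)

theorem C1_prim : PrimrecPred fun a : (ℕ × Hist) × ℕ => C1 a.1.1 a.1.2 a.2 := by
  have e1 : Primrec fun a : (ℕ × Hist) × ℕ => a.1.1 := Primrec.fst.comp Primrec.fst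
  have e2 : Primrec fun a : (ℕ × Hist) × ℕ => a.1.2 := Primrec.snd.comp Primrec.fst
  have e3 : Primrec fun a : (ℕ × Hist) × ℕ => a.2 := Primrec.snd
  refine (Sat_prim.comp e2 e1).not.and ((Used_prim.comp e2 e3).not.and (PrimrecPred.and ?_ ?_))
  · exact Primrec.nat_lt.comp (Primrec.nat_mul.comp (Primrec.const 2) e1) e3
  · exact W_comp (Primrec.nat_div.comp e1 (Primrec.const 2)) (Primrec.list_length.comp e2) e3

theorem coinfinite : (Side Z1 C1 0 ∪ Side Z1 C1 1)ᶜ.Infinite := by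
  intro hfin
  obtain ⟨N, hN⟩ := hfin.bddAbove
  have hall : ∀ x, N < x → ∃ n, 2 * n < x ∧ ∃ s, A Z1 C1 s = some (n, x) := by
    intro x hx
    have : x ∈ Side Z1 C1 0 ∪ Side Z1 C1 1 := by
      by_contra h
      exact absurd (hN h) (by omega)
    rcases this with ⟨s, n, h1, -⟩ | ⟨s, n, h1, -⟩
    · exact ⟨n, (A_eq_some.1 h1).2.2.1.2.2.1, s, h1⟩
    · exact ⟨n, (A_eq_some.1 h1).2.2.1.2.2.1, s, h1⟩
  choose! f hf1 hf2 using hall
  have hcard := Finset.card_le_card_of_injOn (s := Finset.Ioc N (2 * (N + 1)))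
    (t := Finset.range (N + 1)) f ?_ ?_
  · simp at hcard; omega
  · intro x hx
    simp only [Finset.coe_Ioc, Set.mem_Ioc] at hx
    have := hf1 x hx.1
    simp only [Finset.coe_range, Set.mem_Iio]
    omega
  · intro x hx y hy hxy
    simp only [Finset.coe_Ioc, Set.mem_Ioc] at hx hy
    obtain ⟨s, hs⟩ := hf2 x hx.1
    obtain ⟨t, ht⟩ := hf2 y hy.1
    rw [← hxy] at ht
    have := unique_n (fun n L z h => h.1) hs ht
    subst this
    rw [hs] at ht
    simpa using ht

theorem meets (i : ℕ) (hi : i < 2) (V : Set ℕ) (hV : RE V)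
    (hinf : (V \ (Side Z1 C1 0 ∪ Side Z1 C1 1)).Infinite) : (V ∩ Side Z1 C1 i).Nonempty := by
  obtain ⟨e, he⟩ := exists_W hV
  set n := 2 * e + i with hn
  obtain ⟨x, ⟨hxV, hxM⟩, hx⟩ := hinf.exists_gt (2 * n)
  obtain ⟨s0, hs0⟩ := (he x).1 hxV
  set s := Nat.pair x (s0 + n + 1) with hs
  have hle : s0 + n + 1 ≤ s := Nat.right_le_pair _ _
  have hZ : Z1 s = some x := by simp [Z1, hs]
  by_cases hsat : Sat (log Z1 C1 s) n
  · obtain ⟨t, -, y, ht⟩ := sat_log.1 hsat
    have h4 := (A_eq_some.1 ht).2.2.1.2.2.2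
    refine ⟨y, (he y).2 ⟨t, ?_⟩, t, n, ht, by omega⟩
    rw [length_log] at h4
    have : n / 2 = e := by omega
    rw [this] at h4
    exact h4
  · exfalso
    have hused : ¬ Used (log Z1 C1 s) x := by
      intro h
      obtain ⟨t, -, m, ht⟩ := used_log.1 h
      exact hxM (mem_side ht)
    have hC : C1 n (log Z1 C1 s) x := by
      refine ⟨hsat, hused, hx, ?_⟩
      have : n / 2 = e := by omega
      rw [this, length_log]
      exact W_mono (by omega) hs0
    obtain ⟨m, -, hm⟩ := exists_act hZ (by omega) hC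
    exact hxM (mem_side hm)

end One

/-- There are disjoint r.e. sets `M0`, `M1` whose union is coinfinite, such that every r.e. set which
is not almost contained in the union meets both of them. -/
theorem exists_pair : ∃ M0 M1 : Set ℕ, RE M0 ∧ RE M1 ∧ Disjoint M0 M1 ∧ (M0 ∪ M1)ᶜ.Infinite ∧
    ∀ V : Set ℕ, RE V → (V \ (M0 ∪ M1)).Infinite → (V ∩ M0).Nonempty ∧ (V ∩ M1).Nonempty :=
  ⟨Side One.Z1 One.C1 0, Side One.Z1 One.C1 1, Side_RE One.Z1_prim One.C1_prim 0,
    Side_RE One.Z1_prim One.C1_prim 1, side_disjoint fun _ _ _ h => h.2.1, One.coinfinite,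
    fun V hV h => ⟨One.meets 0 (by omega) V hV h, One.meets 1 (by omega) V hV h⟩⟩

end Pool.Agent.V8H40.FS
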