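import Pool.Agent.V8H40.FS.One

/-!
# A small subset, split into two parts

Given an r.e. set `M`, we construct disjoint r.e. subsets `A`, `A'` of `M` such that every r.e. set
`T ⊆ M` containing `M \ (A ∪ A')` whose complement in `M` is r.e. has recursive complement in `M`.
-/

set_option autoImplicit false

namespace Pool.Agent.V8H40.FS.Two

/-- the elements considered -/
def Z2 (s : ℕ) : Option ℕ := some s.unpair.1

theorem Z2_prim : Primrec Z2 := Primrec.option_some.comp (Primrec.fst.comp Primrec.unpair)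

open Classical in
/-- the last stage up to `t` at which the `e`-th requirement has expanded, computed from a history:
`m` is the stage approximation of `M` -/
noncomputable def R (m : ℕ → ℕ → Prop) (e : ℕ) (L : Hist) : ℕ → ℕ
  | 0 => 0
  | t + 1 => if ∀ y < R m e L t, (m y t ∧ ¬ Used (L.take t) y) → W e t y then t + 1
      else R m e L t

/-- the condition of the second construction -/
def C2 (m : ℕ → ℕ → Prop) (n : ℕ) (L : Hist) (y : ℕ) : Prop :=
  ¬ Sat L n ∧ ¬ Used L y ∧ m y L.length ∧ W (n / 2) L.length y ∧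
    ∀ e < n, (W e L.length y ∨ R m e L L.length ≤ y)

variable {m : ℕ → ℕ → Prop}

theorem R_prim (hm : PrimrecPred fun a : ℕ × ℕ => m a.1 a.2) :
    Primrec fun a : (ℕ × Hist) × ℕ => R m a.1.1 a.1.2 a.2 := by
  classical
  have hcond : PrimrecRel fun (r : ℕ) (b : (ℕ × Hist) × ℕ) =>
      ∀ y < r, (m y b.2 ∧ ¬ Used (b.1.2.take b.2) y) → W b.1.1 b.2 y := by
    have h0 : PrimrecRel fun (y : ℕ) (b : (ℕ × Hist) × ℕ) =>
        (m y b.2 ∧ ¬ Used (b.1.2.take b.2) y) → W b.1.1 b.2 y := by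
      have h1 : PrimrecPred fun a : ℕ × ((ℕ × Hist) × ℕ) => m a.1 a.2.2 :=
        hm.comp (Primrec.fst.pair (Primrec.snd.comp Primrec.snd))
      have h2 : PrimrecPred fun a : ℕ × ((ℕ × Hist) × ℕ) =>
          Used (a.2.1.2.take a.2.2) a.1 :=
        Used_prim.comp (Primrec.list_take.comp (Primrec.snd.comp Primrec.snd)
          (Primrec.snd.comp (Primrec.fst.comp Primrec.snd))) Primrec.fst
      have h3 : PrimrecPred fun a : ℕ × ((ℕ × Hist) × ℕ) => W a.2.1.1 a.2.2 a.1 :=
        W_comp (Primrec.fst.comp (Primrec.fst.comp Primrec.snd))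
          (Primrec.snd.comp Primrec.snd) Primrec.fst
      refine ((h1.and h2.not).not.or h3).of_eq fun a => ?_
      tauto
    refine ((h0.forall_mem_list).comp (Primrec.list_range.comp Primrec.fst) Primrec.snd).of_eq ?_
    intro a
    simp
  have h := Primrec.nat_rec (f := fun _ : ℕ × Hist => (0 : ℕ))
    (g := fun (a : ℕ × Hist) (p : ℕ × ℕ) =>
      if ∀ y < p.2, (m y p.1 ∧ ¬ Used (a.2.take p.1) y) → W a.1 p.1 y then p.1 + 1 else p.2)
    (Primrec.const 0) ?_
  · refine (h.comp Primrec.fst Primrec.snd).of_eq fun a => ?_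
    obtain ⟨⟨e, L⟩, t⟩ := a
    induction t with
    | zero => rfl
    | succ t ih =>
      simp only at ih ⊢
      rw [R, ← ih]
  · refine Primrec.ite ?_ ?_ ?_
    · exact hcond.comp (Primrec.snd.comp Primrec.snd)
        (Primrec.fst.pair (Primrec.fst.comp Primrec.snd))
    · exact Primrec.succ.comp (Primrec.fst.comp Primrec.snd)
    · exact Primrec.snd.comp Primrec.snd

theorem C2_prim (hm : PrimrecPred fun a : ℕ × ℕ => m a.1 a.2) :
    PrimrecPred fun a : (ℕ × Hist) × ℕ => C2 m a.1.1 a.1.2 a.2 := by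
  have e1 : Primrec fun a : (ℕ × Hist) × ℕ => a.1.1 := Primrec.fst.comp Primrec.fst
  have e2 : Primrec fun a : (ℕ × Hist) × ℕ => a.1.2 := Primrec.snd.comp Primrec.fst
  have e3 : Primrec fun a : (ℕ × Hist) × ℕ => a.2 := Primrec.snd
  refine (Sat_prim.comp e2 e1).not.and ((Used_prim.comp e2 e3).not.and ((hm.comp
    (e3.pair (Primrec.list_length.comp e2))).and (PrimrecPred.and ?_ ?_)))
  · exact W_comp (Primrec.nat_div.comp e1 (Primrec.const 2)) (Primrec.list_length.comp e2) e3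
  · have h0 : PrimrecRel fun (e : ℕ) (b : Hist × ℕ) =>
        (W e b.1.length b.2 ∨ R m e b.1 b.1.length ≤ b.2) := by
      have f1 : Primrec fun a : ℕ × (Hist × ℕ) => a.2.1 := Primrec.fst.comp Primrec.snd
      refine PrimrecPred.or ?_ ?_
      · exact W_comp Primrec.fst (Primrec.list_length.comp f1) (Primrec.snd.comp Primrec.snd)
      · exact Primrec.nat_le.comp ((R_prim hm).comp ((Primrec.fst.pair f1).pair
          (Primrec.list_length.comp f1))) (Primrec.snd.comp Primrec.snd)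
    refine ((h0.forall_mem_list).comp (Primrec.list_range.comp e1) (e2.pair e3)).of_eq ?_
    intro a
    simp

/-- the restraint of the requirement `e` at stage `s` -/
noncomputable def r (m : ℕ → ℕ → Prop) (e s : ℕ) : ℕ := R m e (log Z2 (C2 m) s) s

theorem R_take (e : ℕ) (L : Hist) (t : ℕ) : R m e L t = R m e (L.take t) t := by
  have key : ∀ u ≤ t, R m e L u = R m e (L.take t) u := by
    intro u hu
    induction u with
    | zero => rfl
    | succ u ih =>
      rw [R, R, ih (by omega), List.take_take, min_eq_left (by omega)]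
  exact key t le_rfl

theorem r_succ (e s : ℕ) :
    ((∀ y < r m e s, (m y s ∧ ¬ Used (log Z2 (C2 m) s) y) → W e s y) ∧ r m e (s + 1) = s + 1) ∨
    (¬ (∀ y < r m e s, (m y s ∧ ¬ Used (log Z2 (C2 m) s) y) → W e s y) ∧
      r m e (s + 1) = r m e s) := by
  have h1 : R m e (log Z2 (C2 m) (s + 1)) s = r m e s := by
    rw [R_take, take_log (by omega)]
    rfl
  have h2 : (log Z2 (C2 m) (s + 1)).take s = log Z2 (C2 m) s := take_log (by omega)
  have h3 : r m e (s + 1) = R m e (log Z2 (C2 m) (s + 1)) (s + 1) := rfl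
  rw [R, h1, h2] at h3
  by_cases h : ∀ y < r m e s, (m y s ∧ ¬ Used (log Z2 (C2 m) s) y) → W e s y
  · rw [if_pos h] at h3
    exact Or.inl ⟨h, h3⟩
  · rw [if_neg h] at h3
    exact Or.inr ⟨h, h3⟩

theorem r_le (e s : ℕ) : r m e s ≤ s := by
  induction s with
  | zero => exact le_of_eq rfl
  | succ s ih =>
    rcases r_succ (m := m) e s with ⟨-, h⟩ | ⟨-, h⟩ <;> omega

theorem r_mono (e : ℕ) : Monotone (r m e) := by
  refine monotone_nat_of_le_succ fun s => ?_
  have := r_le (m := m) e s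
  rcases r_succ (m := m) e s with ⟨-, h⟩ | ⟨-, h⟩ <;> omega

theorem C2_iff {n s y : ℕ} : C2 m n (log Z2 (C2 m) s) y ↔
    ¬ Sat (log Z2 (C2 m) s) n ∧ ¬ Used (log Z2 (C2 m) s) y ∧ m y s ∧ W (n / 2) s y ∧
    ∀ e < n, (W e s y ∨ r m e s ≤ y) := by
  have h : C2 m n (log Z2 (C2 m) s) y ↔
    ¬ Sat (log Z2 (C2 m) s) n ∧ ¬ Used (log Z2 (C2 m) s) y ∧ m y (log Z2 (C2 m) s).length ∧
      W (n / 2) (log Z2 (C2 m) s).length y ∧ ∀ e < n, (W e (log Z2 (C2 m) s).length y ∨
        R m e (log Z2 (C2 m) s) (log Z2 (C2 m) s).length ≤ y) := Iff.rfl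
  rw [h, length_log]
  rfl

/-- the set constructed -/
def B1 (m : ℕ → ℕ → Prop) : Set ℕ := Side Z2 (C2 m) 0 ∪ Side Z2 (C2 m) 1

theorem mem_B1 {y : ℕ} : y ∈ B1 m ↔ ∃ t n, A Z2 (C2 m) t = some (n, y) := by
  constructor
  · rintro (⟨t, n, h, -⟩ | ⟨t, n, h, -⟩)
    · exact ⟨t, n, h⟩
    · exact ⟨t, n, h⟩
  · rintro ⟨t, n, h⟩
    exact mem_side h

theorem sat_once {s t n x y : ℕ} (h1 : A Z2 (C2 m) s = some (n, x))
    (h2 : A Z2 (C2 m) t = some (n, y)) : s = t :=
  unique_n (fun _ _ _ h => h.1) h1 h2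

/-- only finitely many elements are used by small requirements or at small stages -/
theorem fin_small (n : ℕ) :
    {x | ∃ t k, A Z2 (C2 m) t = some (k, x) ∧ (k ≤ n ∨ t ≤ n)}.Finite := by
  classical
  have h1 : {x | ∃ t k, A Z2 (C2 m) t = some (k, x) ∧ t ≤ n}.Finite := by
    have : {x | ∃ t k, A Z2 (C2 m) t = some (k, x) ∧ t ≤ n} ⊆
        ((Finset.range (n + 1)).image fun t => ((A Z2 (C2 m) t).getD (0, 0)).2 : Finset ℕ) := by
      rintro x ⟨t, k, h, ht⟩
      simp only [Finset.coe_image, Finset.coe_range, Set.mem_image, Set.mem_Iio]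
      exact ⟨t, by omega, by rw [h]; rfl⟩
    exact (Finset.finite_toSet _).subset this
  have h2 : ∀ k, {x | ∃ t, A Z2 (C2 m) t = some (k, x)}.Finite := by
    intro k
    refine Set.Subsingleton.finite ?_
    rintro x ⟨t, ht⟩ y ⟨u, hu⟩
    have := sat_once ht hu
    subst this
    rw [ht] at hu
    simpa using hu
  have h3 : (⋃ k ∈ Finset.range (n + 1), {x | ∃ t, A Z2 (C2 m) t = some (k, x)}).Finite :=
    Set.Finite.biUnion (Finset.finite_toSet _) fun k _ => h2 k
  refine (h1.union h3).subset ?_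
  rintro x ⟨t, k, h, hk | ht⟩
  · right
    simp only [Finset.mem_range, Set.mem_iUnion]
    exact ⟨k, by omega, t, h⟩
  · left
    exact ⟨t, k, h, ht⟩

/-- after some stage only requirements above `e` act -/
theorem eventually_above (e : ℕ) :
    ∃ s1, ∀ t ≥ s1, ∀ n x, A Z2 (C2 m) t = some (n, x) → e < n := by
  induction e with
  | zero =>
    by_cases h : ∃ t x, A Z2 (C2 m) t = some (0, x)
    · obtain ⟨t, x, ht⟩ := h
      refine ⟨t + 1, fun u hu n y h => ?_⟩
      rcases Nat.eq_zero_or_pos n with h' | h'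
      · subst h'
        have := sat_once ht h
        omega
      · exact h'
    · refine ⟨0, fun u _ n y h' => ?_⟩
      rcases Nat.eq_zero_or_pos n with h'' | h''
      · subst h''
        exact absurd ⟨u, y, h'⟩ h
      · exact h''
  | succ e ih =>
    obtain ⟨s1, hs1⟩ := ih
    by_cases h : ∃ t x, A Z2 (C2 m) t = some (e + 1, x)
    · obtain ⟨t, x, ht⟩ := h
      refine ⟨max s1 (t + 1), fun u hu n y h => ?_⟩
      have h1 := hs1 u (le_trans (le_max_left _ _) hu) n y h
      have h2 : n ≠ e + 1 := by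
        rintro rfl
        have := sat_once ht h
        have := le_trans (le_max_right _ _) hu
        omega
      omega
    · refine ⟨s1, fun u hu n y h' => ?_⟩
      have h1 := hs1 u hu n y h'
      have h2 : n ≠ e + 1 := by
        rintro rfl
        exact h ⟨u, y, h'⟩
      omega

section
variable {M : Set ℕ} (hmono : ∀ x s t, s ≤ t → m x s → m x t) (hM : ∀ x, x ∈ M ↔ ∃ s, m x s)
include hmono hM

omit hmono in
theorem B1_sub : B1 m ⊆ M := by
  intro y hy
  obtain ⟨t, n, h⟩ := mem_B1.1 hy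
  exact (hM y).2 ⟨t, (C2_iff.1 (A_eq_some.1 h).2.2.1).2.2.1⟩

/-- positive requirements, first part -/
theorem pos1 {i : ℕ} (hi : i < 2) {V : Set ℕ} (hV : RE V) (hd : V ∩ Side Z2 (C2 m) i = ∅) :
    ((V ∩ M) \ B1 m).Finite := by
  obtain ⟨e, he⟩ := exists_W hV
  set n := 2 * e + i with hn
  have hne : n / 2 = e := by omega
  have hnsat : ∀ s, ¬ Sat (log Z2 (C2 m) s) n := by
    intro s hs
    obtain ⟨t, -, x, ht⟩ := sat_log.1 hs
    have h4 := (C2_iff.1 (A_eq_some.1 ht).2.2.1).2.2.2.1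
    rw [hne] at h4
    have : x ∈ V ∩ Side Z2 (C2 m) i := ⟨(he x).2 ⟨t, h4⟩, t, n, ht, by omega⟩
    rw [hd] at this
    exact this
  -- a bound for the bounded restraints
  have hb : ∀ k, ∃ b, ∀ e' < k, (∀ s, r m e' s ≤ b) ∨ ∀ c, ∃ s, c < r m e' s := by
    intro k
    induction k with
    | zero => exact ⟨0, fun e' h => absurd h (by omega)⟩
    | succ k ih =>
      obtain ⟨b, hb⟩ := ih
      by_cases h : ∃ c, ∀ s, r m k s ≤ c
      · obtain ⟨c, hc⟩ := h
        refine ⟨max b c, fun e' he' => ?_⟩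
        rcases Nat.lt_succ_iff_lt_or_eq.1 he' with h' | h'
        · rcases hb e' h' with h'' | h''
          · exact Or.inl fun s => le_trans (h'' s) (le_max_left _ _)
          · exact Or.inr h''
        · subst h'
          exact Or.inl fun s => le_trans (hc s) (le_max_right _ _)
      · push Not at h
        refine ⟨b, fun e' he' => ?_⟩
        rcases Nat.lt_succ_iff_lt_or_eq.1 he' with h' | h'
        · exact hb e' h'
        · subst h'
          exact Or.inr h
  obtain ⟨b, hb⟩ := hb n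
  refine (Set.finite_Iio b).subset ?_
  rintro y ⟨⟨hyV, hyM⟩, hyB⟩
  by_contra hyb
  simp only [Set.mem_Iio, not_lt] at hyb
  obtain ⟨sV, hsV⟩ := (he y).1 hyV
  obtain ⟨sM, hsM⟩ := (hM y).1 hyM
  have hunused : ∀ s, ¬ Used (log Z2 (C2 m) s) y := by
    intro s hs
    obtain ⟨t, -, k, ht⟩ := used_log.1 hs
    exact hyB (mem_B1.2 ⟨t, k, ht⟩)
  have hperm : ∀ k ≤ n, ∃ s0, ∀ s ≥ s0, ∀ e' < k, (W e' s y ∨ r m e' s ≤ y) := by
    intro k
    induction k with
    | zero => exact fun _ => ⟨0, fun s _ e' h => absurd h (by omega)⟩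
    | succ k ih =>
      intro hk
      obtain ⟨s0, hs0⟩ := ih (by omega)
      rcases hb k (by omega) with h | h
      · refine ⟨s0, fun s hs e' he' => ?_⟩
        rcases Nat.lt_succ_iff_lt_or_eq.1 he' with h' | h'
        · exact hs0 s hs e' h'
        · subst h'
          exact Or.inr (le_trans (h s) hyb)
      · obtain ⟨s1, hs1⟩ := h y
        -- an expansion after `max s1 sM`
        obtain ⟨s2, hs2⟩ := h (r m k (max s1 sM))
        have hlt : max s1 sM < s2 := by
          by_contra hcon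
          exact absurd (r_mono (m := m) k (not_lt.1 hcon)) (by omega)
        have hex : ∃ u, max s1 sM ≤ u ∧ r m k (u + 1) ≠ r m k u := by
          by_contra hcon
          push Not at hcon
          have : ∀ u, max s1 sM ≤ u → r m k u = r m k (max s1 sM) := by
            intro u hu
            induction u, hu using Nat.le_induction with
            | base => rfl
            | succ u hu ih => rw [hcon u hu, ih]
          rw [this s2 hlt.le] at hs2
          omega
        obtain ⟨u, hu, hu2⟩ := hex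
        have hW : W k u y := by
          rcases r_succ (m := m) k u with ⟨h1, -⟩ | ⟨-, h1⟩
          · refine h1 y ?_ ⟨hmono y sM u (le_trans (le_max_right _ _) hu) hsM, hunused u⟩
            exact lt_of_lt_of_le hs1 (r_mono k (le_trans (le_max_left _ _) hu))
          · exact absurd h1 hu2
        refine ⟨max s0 u, fun s hs e' he' => ?_⟩
        rcases Nat.lt_succ_iff_lt_or_eq.1 he' with h' | h'
        · exact hs0 s (le_trans (le_max_left _ _) hs) e' h'
        · subst h'
          exact Or.inl (W_mono (le_trans (le_max_right _ _) hs) hW)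
  obtain ⟨s0, hs0⟩ := hperm n le_rfl
  set s := Nat.pair y (s0 + n + 1 + sV + sM) with hs
  have hle : s0 + n + 1 + sV + sM ≤ s := Nat.right_le_pair _ _
  have hZ : Z2 s = some y := by simp [Z2, hs]
  have hC : C2 m n (log Z2 (C2 m) s) y := by
    refine C2_iff.2 ⟨hnsat s, hunused s, hmono y sM s (by omega) hsM, ?_, hs0 s (by omega)⟩
    rw [hne]
    exact W_mono (by omega) hsV
  obtain ⟨k, -, hk⟩ := exists_act hZ (by omega) hC
  exact hyB (mem_B1.2 ⟨s, k, hk⟩)

omit hmono hM in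
/-- positive requirements, second part -/
theorem pos2 (hm : PrimrecPred fun a : ℕ × ℕ => m a.1 a.2)
    {i : ℕ} (hi : i < 2) {V : Set ℕ} (hV : RE V) (hd : V ∩ Side Z2 (C2 m) i = ∅) :
    RE (V \ B1 m) := by
  obtain ⟨e, he⟩ := exists_W hV
  set n := 2 * e + i with hn
  have hne : n / 2 = e := by omega
  have hnsat : ∀ s, ¬ Sat (log Z2 (C2 m) s) n := by
    intro s hs
    obtain ⟨t, -, x, ht⟩ := sat_log.1 hs
    have h4 := (C2_iff.1 (A_eq_some.1 ht).2.2.1).2.2.2.1
    rw [hne] at h4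
    have : x ∈ V ∩ Side Z2 (C2 m) i := ⟨(he x).2 ⟨t, h4⟩, t, n, ht, by omega⟩
    rw [hd] at this
    exact this
  have hD : RE {x | ∃ s, W e s x ∧ ¬ Used (log Z2 (C2 m) s) x} := by
    refine RE_of_prim (P := fun x s => W e s x ∧ ¬ Used (log Z2 (C2 m) s) x) ?_
    exact (W_comp (Primrec.const e) Primrec.snd Primrec.fst).and
      (Used_prim.comp ((log_prim Z2_prim (C2_prim hm)).comp Primrec.snd) Primrec.fst).not
  have hF : ({x | ∃ s, W e s x ∧ ¬ Used (log Z2 (C2 m) s) x} ∩ B1 m).Finite := by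
    refine (fin_small (m := m) n).subset ?_
    rintro x ⟨⟨s, hs1, hs2⟩, hx⟩
    obtain ⟨t, k, h⟩ := mem_B1.1 hx
    refine ⟨t, k, h, ?_⟩
    by_contra hcon
    push Not at hcon
    have hst : s ≤ t := by
      by_contra hlt
      exact hs2 (used_log.2 ⟨t, by omega, k, h⟩)
    have hk := C2_iff.1 (A_eq_some.1 h).2.2.1
    have hC : C2 m n (log Z2 (C2 m) t) x := by
      refine C2_iff.2 ⟨hnsat t, hk.2.1, hk.2.2.1, ?_, fun e' he' => hk.2.2.2.2 e' (by omega)⟩
      rw [hne]
      exact W_mono hst hs1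
    obtain ⟨k', hk', h'⟩ := exists_act (A_eq_some.1 h).1 (by omega) hC
    rw [h] at h'
    simp only [Option.some.injEq, Prod.mk.injEq, and_true] at h'
    omega
  refine (hD.diff_finite hF).of_eq ?_
  ext x
  constructor
  · rintro ⟨⟨s, hs1, hs2⟩, hx⟩
    refine ⟨(he x).2 ⟨s, hs1⟩, fun hxB => hx ⟨⟨s, hs1, hs2⟩, hxB⟩⟩
  · rintro ⟨hxV, hxB⟩
    obtain ⟨s, hs⟩ := (he x).1 hxV
    refine ⟨⟨s, hs, fun h => ?_⟩, fun h => hxB h.2⟩
    obtain ⟨t, -, k, ht⟩ := used_log.1 h
    exact hxB (mem_B1.2 ⟨t, k, ht⟩)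

/-- negative requirements -/
theorem neg (hm : PrimrecPred fun a : ℕ × ℕ => m a.1 a.2) {T : Set ℕ} (hT : RE T)
    (hS : RE (M \ T)) (hsub : M \ B1 m ⊆ T) : Rec (M \ T) := by
  classical
  obtain ⟨e, he⟩ := exists_W hT
  -- the restraint is unbounded
  have hunb : ∀ c, ∃ s, c < r m e s := by
    by_contra hcon
    push Not at hcon
    obtain ⟨c, hc⟩ := hcon
    have hev : ∀ k, ∃ s0, ∀ s ≥ s0, ∀ y < k, (m y s ∧ ¬ Used (log Z2 (C2 m) s) y) → W e s y := by
      intro k
      induction k with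
      | zero => exact ⟨0, fun s _ y h => absurd h (by omega)⟩
      | succ k ih =>
        obtain ⟨s0, hs0⟩ := ih
        have : ∃ s1, ∀ s ≥ s1, (m k s ∧ ¬ Used (log Z2 (C2 m) s) k) → W e s k := by
          by_cases hkM : k ∈ M
          · by_cases hkB : k ∈ B1 m
            · obtain ⟨t, n, h⟩ := mem_B1.1 hkB
              refine ⟨t + 1, fun s hs h' => absurd (used_log.2 ⟨t, by omega, n, h⟩) h'.2⟩
            · obtain ⟨s1, hs1⟩ := (he k).1 (hsub ⟨hkM, hkB⟩)
              exact ⟨s1, fun s hs _ => W_mono hs hs1⟩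
          · exact ⟨0, fun s _ h => absurd ((hM k).2 ⟨s, h.1⟩) hkM⟩
        obtain ⟨s1, hs1⟩ := this
        refine ⟨max s0 s1, fun s hs y hy => ?_⟩
        rcases Nat.lt_succ_iff_lt_or_eq.1 hy with h' | h'
        · exact hs0 s (le_trans (le_max_left _ _) hs) y h'
        · subst h'
          exact hs1 s (le_trans (le_max_right _ _) hs)
    obtain ⟨s0, hs0⟩ := hev (c + 1)
    set s := s0 + c + 1 with hs
    rcases r_succ (m := m) e s with ⟨-, h⟩ | ⟨h, -⟩
    · have := hc (s + 1)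
      omega
    · exact h fun y hy => hs0 s (by omega) y (lt_of_lt_of_le hy (le_trans (hc s) (by omega)))
  obtain ⟨s1, hs1⟩ := eventually_above (m := m) e
  set R0 : Set ℕ := {y | ∃ t, s1 ≤ t ∧ (A Z2 (C2 m) t).map Prod.snd = some y ∧ ¬ W e t y} with hR0
  have hAp : Primrec (A Z2 (C2 m)) := A_prim Z2_prim (C2_prim hm)
  have hprim : PrimrecPred fun a : ℕ × ℕ =>
      s1 ≤ a.2 ∧ (A Z2 (C2 m) a.2).map Prod.snd = some a.1 ∧ ¬ W e a.2 a.1 := by
    refine (Primrec.nat_le.comp (Primrec.const s1) Primrec.snd).and (PrimrecPred.and ?_ ?_)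
    · exact Primrec.eq.comp (Primrec.option_map (hAp.comp Primrec.snd)
        (Primrec.snd.comp Primrec.snd).to₂) (Primrec.option_some.comp Primrec.fst)
    · exact (W_comp (Primrec.const e) Primrec.snd Primrec.fst).not
  have hR0a : RE R0 := RE_of_prim
    (P := fun y t => s1 ≤ t ∧ (A Z2 (C2 m) t).map Prod.snd = some y ∧ ¬ W e t y) hprim
  have hR0r : ∀ y t, s1 ≤ t → (A Z2 (C2 m) t).map Prod.snd = some y → ¬ W e t y →
      r m e t ≤ y := by
    intro y t ht h hW
    rw [Option.map_eq_some_iff] at h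
    obtain ⟨⟨n, y'⟩, h1, h2⟩ := h
    simp only at h2
    subst h2
    have h3 := (C2_iff.1 (A_eq_some.1 h1).2.2.1).2.2.2.2 e (hs1 t ht n _ h1)
    exact h3.resolve_left hW
  have hR0b : RE R0ᶜ := by
    have hp2 : PrimrecPred fun a : ℕ × ℕ => a.1 < r m e a.2 ∧ ∀ t ∈ List.range a.2,
        ¬ (s1 ≤ t ∧ (A Z2 (C2 m) t).map Prod.snd = some a.1 ∧ ¬ W e t a.1) := by
      refine PrimrecPred.and ?_ ?_
      · refine Primrec.nat_lt.comp Primrec.fst ((R_prim hm).comp (((Primrec.const e).pair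
          ((log_prim Z2_prim (C2_prim hm)).comp Primrec.snd)).pair Primrec.snd))
      · have h0 : PrimrecRel fun (t : ℕ) (y : ℕ) =>
            ¬ (s1 ≤ t ∧ (A Z2 (C2 m) t).map Prod.snd = some y ∧ ¬ W e t y) :=
          (hprim.comp (Primrec.snd.pair Primrec.fst)).not
        exact h0.forall_mem_list.comp (Primrec.list_range.comp Primrec.snd) Primrec.fst
    refine (RE_of_prim (P := fun y s => y < r m e s ∧ ∀ t ∈ List.range s,
        ¬ (s1 ≤ t ∧ (A Z2 (C2 m) t).map Prod.snd = some y ∧ ¬ W e t y)) hp2).of_eq ?_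
    ext y
    constructor
    · rintro ⟨s, h1, h2⟩ ⟨t, ht, h3, h4⟩
      have h5 := hR0r y t ht h3 h4
      have h6 : t < s := by
        by_contra hcon
        exact absurd (r_mono (m := m) e (not_lt.1 hcon)) (by omega)
      exact h2 t (List.mem_range.2 h6) ⟨ht, h3, h4⟩
    · intro hy
      obtain ⟨s, hs⟩ := hunb y
      exact ⟨s, hs, fun t _ h => hy ⟨t, h⟩⟩
  have hR0M : R0 ⊆ M := by
    rintro y ⟨t, -, h, -⟩
    rw [Option.map_eq_some_iff] at h
    obtain ⟨⟨n, y'⟩, h1, h2⟩ := h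
    simp only at h2
    subst h2
    exact B1_sub hM (mem_B1.2 ⟨t, n, h1⟩)
  have hrec : Rec ((M \ T) ∩ R0) := by
    refine Rec.split (A := R0) (C := T ∩ R0) ⟨hR0a, hR0b⟩ (hS.inter hR0a) (hT.inter hR0a) ?_ ?_
    · ext y
      constructor
      · rintro (h | h)
        · exact h.2
        · exact h.2
      · intro h
        by_cases hy : y ∈ T
        · exact Or.inr ⟨hy, h⟩
        · exact Or.inl ⟨⟨hR0M h, hy⟩, h⟩
    · rw [Set.disjoint_left]
      rintro y ⟨⟨-, h1⟩, -⟩ ⟨h2, -⟩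
      exact h1 h2
  refine hrec.of_fin ?_ ?_
  · refine Set.finite_empty.subset ?_
    rintro y ⟨⟨h1, -⟩, h2⟩
    exact h2 h1
  · refine (fin_small (m := m) s1).subset ?_
    rintro y ⟨hy, hyR⟩
    have hyB : y ∈ B1 m := by
      by_contra h
      exact hy.2 (hsub ⟨hy.1, h⟩)
    obtain ⟨t, n, h⟩ := mem_B1.1 hyB
    refine ⟨t, n, h, Or.inr ?_⟩
    by_contra hcon
    push Not at hcon
    refine hyR ⟨⟨hy.1, hy.2⟩, t, hcon.le, by rw [h]; rfl, fun hW => hy.2 ((he y).2 ⟨t, hW⟩)⟩

end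

/-- For every r.e. set `M` there are disjoint r.e. subsets `A`, `A'` of `M` such that every r.e. set
`V` disjoint from `A` or from `A'` is almost contained in the union inside of `M` and has r.e.
difference with the union; and every r.e. `T` with r.e. difference `M \ T` contained in the union
has recursive difference. -/
theorem exists_small {M : Set ℕ} (hM : RE M) : ∃ A A' : Set ℕ, RE A ∧ RE A' ∧ Disjoint A A' ∧
    A ∪ A' ⊆ M ∧
    (∀ V : Set ℕ, RE V → (V ∩ A = ∅ ∨ V ∩ A' = ∅) →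
      ((V ∩ M) \ (A ∪ A')).Finite ∧ RE (V \ (A ∪ A'))) ∧
    ∀ T : Set ℕ, RE T → RE (M \ T) → M \ (A ∪ A') ⊆ T → Rec (M \ T) := by
  obtain ⟨m, hm, hmono, hmM⟩ := hM.exists_prim
  refine ⟨Side Z2 (C2 m) 0, Side Z2 (C2 m) 1, Side_RE Z2_prim (C2_prim hm) 0,
    Side_RE Z2_prim (C2_prim hm) 1, side_disjoint fun _ _ _ h => h.2.1, B1_sub hmM, ?_, ?_⟩
  · rintro V hV (h | h)
    · exact ⟨pos1 hmono hmM (by omega) hV h, pos2 hm (by omega) hV h⟩
    · exact ⟨pos1 hmono hmM (by omega) hV h, pos2 hm (by omega) hV h⟩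
  · intro T hT hS hsub
    exact neg hmono hmM hm hT hS hsub

end Pool.Agent.V8H40.FS.Two
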